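import Mathlib
import Pool.Agent.MP_f8284b_co.U85.PB

set_option autoImplicit false

/-! Conditioning tools on the uniform cube. -/

namespace Pool.Agent.MP_f8284b_co.N72

open Finset Pool.Agent.MP_f8284b_co.U85

variable {E : Type} [Fintype E] [DecidableEq E]

/-- coordinates of `F` from the first point, the others from the second -/
def pw (F : Finset E) (ω η : E → Bool) : E → Bool := fun e => if e ∈ F then ω e else η e

omit [Fintype E] in
theorem pw_in {F : Finset E} (ω η : E → Bool) {e : E} (h : e ∈ F) : pw F ω η e = ω e := if_pos h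

omit [Fintype E] in
theorem pw_out {F : Finset E} (ω η : E → Bool) {e : E} (h : e ∉ F) : pw F ω η e = η e := if_neg h

theorem cond_eq (F : Finset E) (A : (E → Bool) → Prop) :
    Pr A = (∑ η, Pr (fun ω => A (pw F ω η))) / Fintype.card (E → Bool) := by
  classical
  let σ : (E → Bool) × (E → Bool) → (E → Bool) × (E → Bool) :=
    fun q => (pw F q.2 q.1, pw F q.1 q.2)
  have hσ : Function.Involutive σ := by
    rintro ⟨ω, ω'⟩
    refine Prod.ext (funext fun e => ?_) (funext fun e => ?_) <;>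
      by_cases he : e ∈ F <;> simp [σ, pw, he]
  have h3 := Equiv.sum_comp hσ.toPerm
    (fun q : (E → Bool) × (E → Bool) => if A q.1 then (1 : ℝ) else 0)
  have hp := PB.card_pos' (E := E)
  simp only [Pr_eq_sum]
  rw [← sum_div, ← Fintype.sum_prod_type']
  simp only [Function.Involutive.coe_toPerm, σ] at h3
  have h4 : (∑ x : (E → Bool) × (E → Bool), if A x.1 then (1 : ℝ) else 0) =
      (Fintype.card (E → Bool) : ℝ) * ∑ x, if A x then (1 : ℝ) else 0 := by
    rw [Fintype.sum_prod_type, mul_sum]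
    exact sum_congr rfl fun x _ => by by_cases h : A x <;> simp [h]
  rw [show (∑ x : (E → Bool) × (E → Bool), if A (pw F x.2 x.1) then (1 : ℝ) else 0) = _ from h3,
    h4]
  field_simp

/-- the event has conditional probability at most `p` whatever the coordinates off `F` -/
def Sm (F : Finset E) (A : (E → Bool) → Prop) (p : ℝ) : Prop :=
  ∀ η, Pr (fun ω => A (pw F ω η)) ≤ p

theorem Sm.le {F : Finset E} {A : (E → Bool) → Prop} {p : ℝ} (h : Sm F A p) : Pr A ≤ p := by
  have hp := PB.card_pos' (E := E)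
  rw [cond_eq F, div_le_iff₀ hp]
  refine (sum_le_sum fun η _ => h η).trans ?_
  simp [mul_comm]

theorem Sm.mono {F F' : Finset E} {A : (E → Bool) → Prop} {p : ℝ} (h : Sm F A p) (hF : F ⊆ F') :
    Sm F' A p := fun η => by
  refine Sm.le (F := F) fun η' => ?_
  refine le_trans (le_of_eq (Pr_congr fun ω => ?_)) (h (pw F' η' η))
  have : pw F' (pw F ω η') η = pw F ω (pw F' η' η) := funext fun e => by
    by_cases a : e ∈ F
    · simp [pw, a, hF a]
    · simp [pw, a]
  rw [this]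

theorem Sm.or {F : Finset E} {A C B : (E → Bool) → Prop} {p q : ℝ} (h : Sm F A p) (h' : Sm F C q)
    (hB : ∀ ω, B ω → A ω ∨ C ω) : Sm F B (p + q) := fun η =>
  ((Pr_mono fun _ hω => hB _ hω).trans (Pr_or_le _ _)).trans (add_le_add (h η) (h' η))

theorem Sm.and {F : Finset E} {A C : (E → Bool) → Prop} {p : ℝ} (h : Sm F A p)
    (hC : ∀ ω η, C (pw F ω η) → C η) : Pr (fun ω => A ω ∧ C ω) ≤ p * Pr C := by
  classical
  have hp := PB.card_pos' (E := E)
  rw [cond_eq F, Pr_eq_sum C, ← mul_div_assoc, mul_sum]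
  refine div_le_div_of_nonneg_right (sum_le_sum fun η _ => ?_) hp.le
  split_ifs with c
  · rw [mul_one]
    exact (Pr_mono fun ω hω => hω.1).trans (h η)
  · rw [mul_zero, Pr_eq_zero fun ω hω => c (hC _ _ hω.2)]

theorem Pr_le_one (A : (E → Bool) → Prop) : Pr A ≤ 1 := by
  have := Pr_add_not A
  have := Pr_nonneg fun ω => ¬ A ω
  linarith

theorem seq {I : Type} [DecidableEq I] (F : I → Finset E) (A : I → (E → Bool) → Prop) {p : ℝ}
    (hp : 0 ≤ p) (P : Finset I) (h : ∀ i ∈ P, Sm (F i) (A i) p)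
    (hi : ∀ i ∈ P, ∀ j ∈ P, i ≠ j → ∀ ω η, A j (pw (F i) ω η) → A j η) :
    Pr (fun ω => ∀ i ∈ P, A i ω) ≤ p ^ P.card := by
  induction P using Finset.induction_on with
  | empty => simpa using Pr_le_one _
  | insert a P ha ih =>
    rw [card_insert_of_notMem ha, pow_succ']
    have h1 := ih (fun i hi' => h i (mem_insert_of_mem hi'))
      (fun i a1 j a2 => hi i (mem_insert_of_mem a1) j (mem_insert_of_mem a2))
    have h2 := (h a (mem_insert_self _ _)).and (C := fun ω => ∀ i ∈ P, A i ω)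
      (fun ω η hω j hj => hi a (mem_insert_self _ _) j (mem_insert_of_mem hj)
        (fun e => ha (e ▸ hj)) ω η (hω j hj))
    refine le_trans (Pr_mono fun ω hω => ?_) (h2.trans (mul_le_mul_of_nonneg_left h1 hp))
    exact ⟨hω a (mem_insert_self _ _), fun i hi' => hω i (mem_insert_of_mem hi')⟩

theorem cyl (F : Finset E) (ζ : E → Bool) :
    Pr (fun ω : E → Bool => ∀ e ∈ F, ω e = ζ e) = (1 / 2) ^ F.card := by
  classical
  have h := PB.avg_prod F fun e b => if b = ζ e then (1 : ℝ) else 0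
  rw [Pr_eq_sum]
  simp only [prod_boole] at h
  rw [← prod_const]
  refine Eq.trans ?_ (h.trans (prod_congr rfl fun e _ => ?_))
  · congr 1
    exact sum_congr rfl fun ω _ => by congr
  · cases ζ e <;> simp

/-- the largest point mass of a fair binomial -/
noncomputable def mid (m : ℕ) : ℝ := m.choose (m / 2) * (1 / 2) ^ m

theorem mid_nonneg (m : ℕ) : 0 ≤ mid m := by unfold mid; positivity

theorem anti (F : Finset E) (C : (E → Bool) → Prop)
    (h : ∀ ω ω', C ω → C ω' → (∀ e ∈ F, ω e = true → ω' e = true) → ∀ e ∈ F, ω e = ω' e) :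
    Pr C ≤ mid F.card := by
  classical
  let f : (E → Bool) → Finset F := fun ω => univ.filter fun e => ω e = true
  have h1 : IsAntichain (· ⊆ ·) (SetLike.coe ((univ.filter C).image f)) := by
    intro S hS S' hS' hne hsub
    obtain ⟨ω, hω, rfl⟩ := mem_image.1 (mem_coe.1 hS)
    obtain ⟨ω', hω', rfl⟩ := mem_image.1 (mem_coe.1 hS')
    have := h ω ω' (mem_filter.1 hω).2 (mem_filter.1 hω').2 fun e he ht =>
      (mem_filter.1 (hsub (show (⟨e, he⟩ : F) ∈ f ω from mem_filter.2 ⟨mem_univ _, ht⟩))).2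
    exact hne (filter_congr fun e _ => by rw [this e e.2])
  have h2 := h1.sperner
  rw [Fintype.card_coe] at h2
  have h3 := Pr_exists_le ((univ.filter C).image f)
    (fun S (ω : E → Bool) => ∀ e ∈ F, ω e = decide (∃ he : e ∈ F, (⟨e, he⟩ : F) ∈ S))
  simp only [cyl, sum_const, nsmul_eq_mul] at h3
  refine le_trans (Pr_mono fun ω hω => ?_) (h3.trans ?_)
  · refine ⟨f ω, mem_image_of_mem _ (mem_filter.2 ⟨mem_univ _, hω⟩), fun e he => ?_⟩
    cases hc : ω e <;> simp [f, he, hc]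
  · unfold mid
    gcongr

/-- triangular antichain condition along the groups `Q t` -/
def Tri (T : Finset ℕ) (Q : ℕ → Finset E) (A : (E → Bool) → Prop) : Prop :=
  ∀ t ∈ T, ∀ ω ω', A ω → A ω' → (∀ e, (∀ t' ∈ T, t' ≤ t → e ∉ Q t') → ω e = ω' e) →
    (∀ e ∈ Q t, ω e = true → ω' e = true) → ∀ e ∈ Q t, ω e = ω' e

theorem groups (Q : ℕ → Finset E) (A : (E → Bool) → Prop) (m : ℕ) (T : Finset ℕ)
    (hd : ∀ t ∈ T, ∀ t' ∈ T, t ≠ t' → Disjoint (Q t) (Q t')) (hc : ∀ t ∈ T, (Q t).card = m)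
    (h : Tri T Q A) : Sm (T.biUnion Q) A (mid m ^ T.card) := by
  induction T using Finset.induction_on_max with
  | empty => exact fun η => by simpa using Pr_le_one _
  | insert a T ha ih =>
    have haT : a ∉ T := fun h => lt_irrefl _ (ha a h)
    have h1 := ih (fun t a1 t' a2 => hd t (mem_insert_of_mem a1) t' (mem_insert_of_mem a2))
      (fun t a1 => hc t (mem_insert_of_mem a1))
      (fun t a1 ω ω' a2 a3 a4 => h t (mem_insert_of_mem a1) ω ω' a2 a3 fun e he =>
        a4 e fun t' b1 b2 => he t' (mem_insert_of_mem b1) b2)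
    intro η
    rw [card_insert_of_notMem haT, pow_succ, biUnion_insert]
    have h2 : Sm (T.biUnion Q) (fun ω => A (pw (Q a ∪ T.biUnion Q) ω η)) (mid m ^ T.card) := by
      intro η'
      refine le_trans (le_of_eq (Pr_congr fun ω => ?_)) (h1 (pw (Q a ∪ T.biUnion Q) η' η))
      have : pw (Q a ∪ T.biUnion Q) (pw (T.biUnion Q) ω η') η =
          pw (T.biUnion Q) ω (pw (Q a ∪ T.biUnion Q) η' η) := funext fun e => by
        by_cases b : e ∈ T.biUnion Q
        · rw [pw_in _ _ b, pw_in _ _ (mem_union_right _ b), pw_in _ _ b]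
        · rw [pw_out _ _ b]
          unfold pw
          rw [if_neg b]
      rw [← this]
    have h3 := h2.and (C := fun ω => ∃ ζ, A (pw (Q a ∪ T.biUnion Q) (pw (Q a) ω ζ) η)) (by
      rintro ω η' ⟨ζ, hζ⟩
      refine ⟨ζ, ?_⟩
      have : pw (Q a) η' ζ = pw (Q a) (pw (T.biUnion Q) ω η') ζ := funext fun e => by
        by_cases b : e ∈ Q a
        · rw [pw_in _ _ b, pw_in _ _ b, pw_out]
          intro hb
          obtain ⟨t, ht, he⟩ := mem_biUnion.1 hb
          exact disjoint_left.1 (hd a (mem_insert_self _ _) t (mem_insert_of_mem ht)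
            fun e => haT (e ▸ ht)) b he
        · rw [pw_out _ _ b, pw_out _ _ b]
      rwa [this])
    have h4 := anti (Q a) (fun ω => ∃ ζ, A (pw (Q a ∪ T.biUnion Q) (pw (Q a) ω ζ) η)) (by
      rintro ω ω' ⟨ζ, hζ⟩ ⟨ζ', hζ'⟩ hle e he
      have key : ∀ x y e, e ∈ Q a → pw (Q a ∪ T.biUnion Q) (pw (Q a) x y) η e = x e :=
        fun x y e he => by rw [pw_in _ _ (mem_union_left _ he), pw_in _ _ he]
      have := h a (mem_insert_self _ _) _ _ hζ hζ' (fun e he => by
        have : e ∉ Q a ∪ T.biUnion Q := fun hb => by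
          rcases mem_union.1 hb with b | b
          · exact he a (mem_insert_self _ _) le_rfl b
          · obtain ⟨t, ht, b⟩ := mem_biUnion.1 b
            exact he t (mem_insert_of_mem ht) (ha t ht).le b
        rw [pw_out _ _ this, pw_out _ _ this])
        (fun e he => by rw [key _ _ e he, key _ _ e he]; exact hle e he) e he
      rwa [key _ _ e he, key _ _ e he] at this)
    rw [hc a (mem_insert_self _ _)] at h4
    refine le_trans (Pr_mono fun ω hω => ⟨hω, ω, ?_⟩)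
      (h3.trans (mul_le_mul_of_nonneg_left h4 (pow_nonneg (mid_nonneg m) _)))
    have : pw (Q a) ω ω = ω := funext fun e => ite_self _
    rwa [this]

theorem bits (F : Finset E) (A : (E → Bool) → Prop) (R m : ℕ)
    (h : ∀ ζ, A ζ → ∃ (T : Finset ℕ) (Q : ℕ → Finset E), T.card = R ∧
      (∀ t ∈ T, (Q t).card = m ∧ Q t ⊆ F) ∧ (∀ t ∈ T, ∀ t' ∈ T, t ≠ t' → Disjoint (Q t) (Q t')) ∧
      Tri T Q fun ω => A ω ∧ ∀ e, e ∉ F → ω e = ζ e) : Pr A ≤ mid m ^ R := by
  refine Sm.le (F := F) fun η => ?_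
  by_cases hne : ∃ ζ, A (pw F ζ η)
  · obtain ⟨ζ, hζ⟩ := hne
    obtain ⟨T, Q, rfl, h1, h2, h3⟩ := h _ hζ
    refine (groups Q _ m T h2 (fun t ht => (h1 t ht).1) fun t ht ω ω' a1 a2 a3 a4 e he => ?_).le
    have hF := (h1 t ht).2
    have := h3 t ht _ _ ⟨a1, fun e he => by rw [pw_out _ _ he, pw_out _ _ he]⟩
      ⟨a2, fun e he => by rw [pw_out _ _ he, pw_out _ _ he]⟩ (fun e he => by
        by_cases b : e ∈ F
        · rw [pw_in _ _ b, pw_in _ _ b, a3 e he]
        · rw [pw_out _ _ b, pw_out _ _ b])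
      (fun e he => by rw [pw_in _ _ (hF he), pw_in _ _ (hF he)]; exact a4 e he) e he
    rwa [pw_in _ _ (hF he), pw_in _ _ (hF he)] at this
  · rw [Pr_eq_zero fun ω hω => hne ⟨ω, hω⟩]
    exact pow_nonneg (mid_nonneg m) _

theorem subcube (F : Finset E) (A : (E → Bool) → Prop) (hF : F.card ≤ 2)
    (h : ∀ η, ∃ ζ, ¬ A (pw F ζ η)) : Sm F A (3 / 4) := fun η => by
  obtain ⟨ζ, hζ⟩ := h η
  have h1 := Pr_add_not (fun ω : E → Bool => ∀ e ∈ F, ω e = ζ e)
  rw [cyl] at h1
  have h2 : ((1 : ℝ) / 2) ^ 2 ≤ (1 / 2) ^ F.card :=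
    pow_le_pow_of_le_one (by norm_num) (by norm_num) hF
  have h3 : Pr (fun ω => A (pw F ω η)) ≤ Pr (fun ω : E → Bool => ¬ ∀ e ∈ F, ω e = ζ e) :=
    Pr_mono fun ω hω hc => hζ (by
      have : pw F ζ η = pw F ω η := funext fun e => by
        by_cases b : e ∈ F
        · rw [pw_in _ _ b, pw_in _ _ b, hc e b]
        · rw [pw_out _ _ b, pw_out _ _ b]
      rwa [this])
  linarith

theorem central (k : ℕ) : ((2 * k).choose k) ^ 2 * (2 * k + 1) ≤ 16 ^ k := by
  rw [← Nat.centralBinom_eq_two_mul_choose]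
  induction k with
  | zero => simp
  | succ k ih =>
    have h := Nat.succ_mul_centralBinom_succ k
    refine Nat.le_of_mul_le_mul_left (c := (k + 1) ^ 2) ?_ (by positivity)
    calc (k + 1) ^ 2 * ((k + 1).centralBinom ^ 2 * (2 * (k + 1) + 1))
        = ((k + 1) * (k + 1).centralBinom) ^ 2 * (2 * k + 3) := by ring
      _ = (k.centralBinom ^ 2 * (2 * k + 1)) * (4 * ((2 * k + 1) * (2 * k + 3))) := by
          rw [h]; ring
      _ ≤ 16 ^ k * (16 * (k + 1) ^ 2) := Nat.mul_le_mul ih (by nlinarith)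
      _ = _ := by ring

theorem mid_le (j : ℕ) {y : ℝ} (hy : 0 < y) (h : y ≤ 2 * j + 1) :
    mid (2 * j) ≤ Real.exp (-(Real.log y / 2)) ∧ mid 1 ^ j ≤ Real.exp (-(Real.log y / 2)) := by
  have e : Real.exp (-(Real.log y / 2)) ^ 2 * y = 1 := by
    rw [← Real.exp_nat_mul, show ((2 : ℕ) : ℝ) * -(Real.log y / 2) = -Real.log y by push_cast; ring,
      Real.exp_neg, Real.exp_log hy, inv_mul_cancel₀ hy.ne']
  have key : ∀ x : ℝ, 0 ≤ x → x ^ 2 * (2 * j + 1) ≤ 1 → x ≤ Real.exp (-(Real.log y / 2)) := by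
    intro x hx h1
    refine (sq_le_sq₀ hx (Real.exp_pos _).le).1 (le_of_mul_le_mul_right ?_ hy)
    rw [e]
    exact (mul_le_mul_of_nonneg_left h (sq_nonneg x)).trans h1
  have h5 : (((1 : ℝ) / 2) ^ j) ^ 2 * 4 ^ j = 1 := by
    rw [← pow_mul, mul_comm j, pow_mul, ← mul_pow]; norm_num
  refine ⟨key _ (mid_nonneg _) ?_, key _ (pow_nonneg (mid_nonneg _) _) ?_⟩
  · have h2 : (((2 * j).choose j : ℝ)) ^ 2 * (2 * j + 1) ≤ 16 ^ j := by exact_mod_cast central j
    have h6 : (((1 : ℝ) / 2) ^ (2 * j)) ^ 2 * 16 ^ j = 1 := by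
      rw [← pow_mul, show 2 * j * 2 = 4 * j by ring, pow_mul, ← mul_pow]; norm_num
    rw [mid, Nat.mul_div_cancel_left _ two_pos, mul_pow]
    nlinarith [mul_le_mul_of_nonneg_left h2 (sq_nonneg (((1 : ℝ) / 2) ^ (2 * j)))]
  · have h2 : 1 + (j : ℝ) * 3 ≤ (1 + 3) ^ j := one_add_mul_le_pow (by norm_num) j
    have h3 : mid 1 = 1 / 2 := by simp [mid]
    have h4 : (2 * j + 1 : ℝ) ≤ 4 ^ j := by
      norm_num at h2
      linarith [Nat.cast_nonneg (α := ℝ) j]
    rw [h3]
    nlinarith [mul_le_mul_of_nonneg_left h4 (sq_nonneg (((1 : ℝ) / 2) ^ j))]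

theorem point (F : Finset E) (k : ℕ) (hF : F.card = 2 * k) (j : ℕ) :
    Pr (fun ω : E → Bool => cnt ω F = j) ≤ (2 * k).choose k * (1 / 2) ^ (2 * k) := by
  have h1 := Pr_exists_le (F.powersetCard j)
    (fun S (ω : E → Bool) => ∀ e ∈ F, ω e = decide (e ∈ S))
  simp only [cyl, sum_const, card_powersetCard, nsmul_eq_mul, hF] at h1
  refine le_trans (Pr_mono fun ω hω => ?_) (h1.trans ?_)
  · refine ⟨F.filter fun e => ω e = true, mem_powersetCard.2 ⟨filter_subset _ _, hω⟩, ?_⟩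
    intro e he
    cases h : ω e <;> simp [he, h]
  · have := Nat.choose_le_centralBinom j k
    rw [Nat.centralBinom_eq_two_mul_choose] at this
    gcongr

theorem spread (F : Finset E) (k R : ℕ) (hF : F.card = 2 * k) (hR : 64 * R ^ 2 ≤ 2 * k + 1)
    (T : Finset ℕ) (hT : T.card ≤ R) (c : ℕ) :
    Pr (fun ω : E → Bool => cnt ω F + c ∈ T) ≤ 1 / 8 := by
  have h1 := Pr_exists_le T (fun t (ω : E → Bool) => cnt ω F = t - c)
  refine le_trans (Pr_mono fun ω hω => ⟨_, hω, by omega⟩) (h1.trans ?_)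
  refine (sum_le_sum fun t _ => point F k hF _).trans ?_
  rw [sum_const, nsmul_eq_mul]
  have h2 : (((2 * k).choose k : ℝ)) ^ 2 * (2 * k + 1) ≤ 16 ^ k := by exact_mod_cast central k
  have h3 : (64 : ℝ) * R ^ 2 ≤ 2 * k + 1 := by exact_mod_cast hR
  have h4 : (T.card : ℝ) ≤ R := by exact_mod_cast hT
  have h5 : ((1 : ℝ) / 2) ^ (2 * k) * 4 ^ k = 1 := by
    rw [pow_mul, ← mul_pow]; norm_num
  have h6 : (16 : ℝ) ^ k = (4 ^ k) ^ 2 := by rw [← pow_mul, mul_comm, pow_mul]; norm_num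
  have h7 : 8 * R * ((2 * k).choose k : ℝ) ≤ 4 ^ k := by
    refine (sq_le_sq₀ (by positivity) (by positivity)).1 ?_
    nlinarith [mul_le_mul_of_nonneg_left h3 (sq_nonneg ((2 * k).choose k : ℝ))]
  have h8 : (0 : ℝ) ≤ (1 / 2) ^ (2 * k) := by positivity
  have h9 : (0 : ℝ) ≤ (2 * k).choose k * (1 / 2) ^ (2 * k) := by positivity
  nlinarith [mul_le_mul_of_nonneg_left h7 h8, mul_le_mul_of_nonneg_right h4 h9]

theorem psi_le (θ : ℝ) : psi θ ≤ θ / 2 + θ ^ 2 / 8 := by
  unfold psi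
  rw [Real.log_le_iff_le_exp (by positivity)]
  have h := Real.cosh_le_exp_half_sq (θ / 2)
  rw [Real.cosh_eq] at h
  have e1 : Real.exp θ = Real.exp (θ / 2) * Real.exp (θ / 2) := by
    rw [← Real.exp_add]; ring_nf
  have e2 : Real.exp (θ / 2) * Real.exp (-(θ / 2)) = 1 := by rw [← Real.exp_add]; simp
  have e3 : (θ / 2) ^ 2 / 2 = θ ^ 2 / 8 := by ring
  rw [Real.exp_add, e1, ← e3]
  nlinarith [mul_le_mul_of_nonneg_left h (Real.exp_pos (θ / 2)).le]

theorem chern (F : Finset E) :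
    Pr (fun ω : E → Bool => ¬ (45 * F.card ≤ 100 * cnt ω F ∧ 100 * cnt ω F ≤ 55 * F.card)) ≤
      2 * Real.exp (-(F.card : ℝ) / 200) := by
  have h1 := PB.tilt (fun ω : E → Bool => 100 * cnt ω F < 45 * F.card) F (fun _ => -(1 / 5))
    (-(1 / 5) * (45 / 100 * F.card)) (fun ω h => by
      rw [sum_ite_const]
      have : (100 : ℝ) * cnt ω F < 45 * F.card := by exact_mod_cast h
      linarith)
  have h2 := PB.tilt (fun ω : E → Bool => 55 * F.card < 100 * cnt ω F) F (fun _ => 1 / 5)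
    (1 / 5 * (55 / 100 * F.card)) (fun ω h => by
      rw [sum_ite_const]
      have : (55 : ℝ) * F.card < 100 * cnt ω F := by exact_mod_cast h
      linarith)
  rw [sum_const, nsmul_eq_mul] at h1 h2
  have a1 := mul_le_mul_of_nonneg_left (psi_le (-(1 / 5))) (Nat.cast_nonneg (α := ℝ) F.card)
  have a2 := mul_le_mul_of_nonneg_left (psi_le (1 / 5)) (Nat.cast_nonneg (α := ℝ) F.card)
  have b1 := h1.trans (Real.exp_le_exp.2 (show _ ≤ -(F.card : ℝ) / 200 by linarith))
  have b2 := h2.trans (Real.exp_le_exp.2 (show _ ≤ -(F.card : ℝ) / 200 by linarith))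
  refine le_trans (Pr_mono fun ω h => ?_) ((Pr_or_le _ _).trans ((add_le_add b1 b2).trans ?_))
  · omega
  · linarith

end Pool.Agent.MP_f8284b_co.N72
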