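import Mathlib
import Pool.Agent.MP_f8284b_co.N72.Prob

set_option autoImplicit false

/-! Cuts of a labelling, the level identity and two algebraic lemmas. -/

namespace Pool.Agent.MP_f8284b_co.N72

open Finset Polynomial Pool.Agent.MP_f8284b_co.U85

variable {V : Type} [Fintype V] [DecidableEq V]

def ind (ω : Sym2 V → Bool) (u v : V) : ℕ := if ω s(u, v) = true then 1 else 0

def ct (ω : Sym2 V → Bool) (S : Finset V) : ℕ := ∑ u ∈ S, ∑ v ∈ Sᶜ, ind ω u v

def flp (D : Finset (Sym2 V)) (ω : Sym2 V → Bool) : Sym2 V → Bool :=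
  fun e => if e ∈ D then !ω e else ω e

noncomputable def zz (b : Bool) : ℚ[X] := if b = true then 1 else X ^ 2

noncomputable def ps (U : Finset V) (a : ℕ) (γ γ' : Finset V → ℕ) (β : V → Bool) : ℚ[X] :=
  ∑ A ∈ powersetCard a U, (X ^ γ A - X ^ γ' A) * ∏ w ∈ A, zz (β w)

noncomputable def kp (U : Finset V) (a : ℕ) (γ γ' : Finset V → ℕ) : ℚ[X] :=
  ∑ A ∈ powersetCard (a + 1) U, (X ^ γ A - X ^ γ' A)

/-- the identity read off level `a + 1` -/
def EQ (D : Finset (Sym2 V)) (U : Finset V) (a : ℕ) (ω : Sym2 V → Bool) : Prop :=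
  kp U a (ct ω) (ct (flp D ω)) * X ^ (2 * a) +
    ∑ v ∈ Uᶜ, X ^ ct ω {v} * ps U a (ct ω) (ct (flp D ω)) (fun w => ω s(v, w)) = 0

omit [Fintype V] [DecidableEq V] in
theorem ind_comm (ω : Sym2 V → Bool) (u v : V) : ind ω u v = ind ω v u := by
  unfold ind; rw [Sym2.eq_swap]

omit [Fintype V] [DecidableEq V] in
theorem ind_le (ω : Sym2 V → Bool) (u v : V) : ind ω u v ≤ 1 := by
  unfold ind; split_ifs <;> simp

theorem ct_single (ω : Sym2 V → Bool) (v : V) : ct ω {v} = ∑ w ∈ ({v} : Finset V)ᶜ, ind ω v w := by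
  rw [ct, sum_singleton]

theorem ct_congr {ω η : Sym2 V → Bool} {A : Finset V} (h : ∀ u ∈ A, ∀ w, ω s(u, w) = η s(u, w)) :
    ct ω A = ct η A :=
  sum_congr rfl fun u hu => sum_congr rfl fun w _ => by unfold ind; rw [h u hu w]

theorem ct_le (ω : Sym2 V → Bool) (A : Finset V) : ct ω A ≤ A.card * Fintype.card V := by
  rw [← smul_eq_mul]
  refine sum_le_card_nsmul _ _ _ fun u _ => ?_
  refine (sum_le_card_nsmul _ _ 1 fun w _ => ind_le ω u w).trans ?_
  simpa using card_le_univ _

theorem ct_insert (ω : Sym2 V → Bool) {v : V} {A : Finset V} (h : v ∉ A) :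
    ct ω (insert v A) + 2 * ∑ w ∈ A, ind ω v w = ct ω A + ct ω {v} := by
  have h1 : ∀ u, ∑ w ∈ Aᶜ, ind ω u w = ind ω v u + ∑ w ∈ (insert v A)ᶜ, ind ω u w := fun u => by
    rw [compl_insert, ind_comm ω v u, add_sum_erase _ _ (mem_compl.2 h)]
  have h2 : ({v} : Finset V)ᶜ = A ∪ (insert v A)ᶜ := by
    ext w
    by_cases a : w ∈ A
    · have : w ≠ v := fun e => h (e ▸ a)
      simp [a, this]
    · simp [a]
  rw [ct_single, h2, sum_union (disjoint_compl_right.mono_left (subset_insert _ _)), ct, ct,
    sum_insert h]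
  simp only [h1, sum_add_distrib]
  ring

theorem poly_insert (ω : Sym2 V → Bool) {v : V} {A : Finset V} (h : v ∉ A) :
    (X : ℚ[X]) ^ ct ω (insert v A) * X ^ (2 * A.card) =
      X ^ ct ω {v} * (X ^ ct ω A * ∏ w ∈ A, zz (ω s(v, w))) := by
  have h1 : (X : ℚ[X]) ^ (2 * A.card) =
      X ^ (2 * ∑ w ∈ A, ind ω v w) * ∏ w ∈ A, zz (ω s(v, w)) := by
    rw [mul_sum, ← prod_pow_eq_pow_sum, ← prod_mul_distrib, pow_mul, ← prod_const]
    refine prod_congr rfl fun w _ => ?_
    unfold ind zz
    split_ifs <;> simp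
  rw [h1, ← mul_assoc, ← pow_add, ct_insert ω h, pow_add]
  ring

section loc

variable {D : Finset (Sym2 V)} {U : Finset V} (hU : ∀ e ∈ D, ∀ v ∈ e, v ∈ U)
include hU

omit [Fintype V] in
theorem flp_out (ω : Sym2 V → Bool) {v : V} (hv : v ∉ U) (w : V) : flp D ω s(v, w) = ω s(v, w) :=
  if_neg fun h => hv (hU _ h v (Sym2.mem_mk_left _ _))

theorem loc (ω : Sym2 V → Bool) (A : Finset V) (hA : ct ω A = ct (flp D ω) A) (T : Finset V)
    (h1 : Disjoint T U) (h2 : Disjoint T A) : ct ω (T ∪ A) = ct (flp D ω) (T ∪ A) := by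
  induction T using Finset.induction_on with
  | empty => simpa using hA
  | insert v T hv ih =>
    rw [disjoint_insert_left] at h1 h2
    have hv' : v ∉ T ∪ A := by simp [hv, h2.1]
    have a1 := ct_insert ω hv'
    have a2 := ct_insert (flp D ω) hv'
    have a3 : ct (flp D ω) {v} = ct ω {v} :=
      ct_congr fun u hu w => by rw [mem_singleton.1 hu, flp_out hU ω h1.1]
    have a4 : ∑ w ∈ T ∪ A, ind (flp D ω) v w = ∑ w ∈ T ∪ A, ind ω v w :=
      sum_congr rfl fun w _ => by unfold ind; rw [flp_out hU ω h1.1]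
    have := ih h1.2 h2.2
    rw [insert_union]
    omega

theorem level_eq (ω : Sym2 V → Bool) (a : ℕ)
    (hlow : ∀ A ⊆ U, A.card < a → ct ω A = ct (flp D ω) A)
    (hlev : ∑ S ∈ powersetCard (a + 1) (univ : Finset V),
      ((X : ℚ[X]) ^ ct ω S - X ^ ct (flp D ω) S) = 0) : EQ D U a ω := by
  have hs : powersetCard (a + 1) U ⊆ powersetCard (a + 1) univ := powersetCard_mono (subset_univ _)
  rw [← sum_sdiff hs] at hlev
  have hinj : Set.InjOn (fun p : V × Finset V => insert p.1 p.2)
      (Uᶜ ×ˢ powersetCard a U : Finset _) := by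
    rintro ⟨v, A⟩ hp ⟨v', A'⟩ hp' e
    simp only [coe_product, Set.mem_prod, mem_coe, mem_compl, mem_powersetCard] at hp hp'
    simp only at e
    have hv : v = v' := by
      have : v ∈ insert v' A' := e ▸ mem_insert_self _ _
      exact (mem_insert.1 this).resolve_right fun h => hp.1 (hp'.2.1 h)
    subst hv
    rw [← erase_insert (fun h => hp.1 (hp.2.1 h) : v ∉ A), e,
      erase_insert (fun h => hp.1 (hp'.2.1 h))]
  have h1 : ∑ S ∈ (Uᶜ ×ˢ powersetCard a U).image (fun p : V × Finset V => insert p.1 p.2),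
      ((X : ℚ[X]) ^ ct ω S - X ^ ct (flp D ω) S) =
      ∑ S ∈ powersetCard (a + 1) univ \ powersetCard (a + 1) U,
        ((X : ℚ[X]) ^ ct ω S - X ^ ct (flp D ω) S) := by
    refine sum_subset ?_ ?_
    · intro S hS
      obtain ⟨⟨v, A⟩, hp, rfl⟩ := mem_image.1 hS
      simp only [mem_product, mem_compl, mem_powersetCard] at hp
      simp only [mem_sdiff, mem_powersetCard, subset_univ, true_and, not_and]
      exact ⟨by rw [card_insert_of_notMem fun h => hp.1 (hp.2.1 h), hp.2.2],
        fun h => absurd (h (mem_insert_self _ _)) hp.1⟩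
    · intro S hS hS'
      simp only [mem_sdiff, mem_powersetCard, subset_univ, true_and, not_and] at hS
      obtain ⟨v, hv, hvU⟩ := not_subset.1 fun h => hS.2 h hS.1
      have b1 : S ∩ U ⊆ S.erase v := fun w hw =>
        mem_erase.2 ⟨fun e => hvU (e ▸ (mem_inter.1 hw).2), (mem_inter.1 hw).1⟩
      have b2 : (S.erase v).card = a := by rw [card_erase_of_mem hv, hS.1]; rfl
      have b3 : (S ∩ U).card < a := by
        by_contra hc
        have b4 := eq_of_subset_of_card_le b1 (by omega)
        refine hS' (mem_image.2 ⟨(v, S ∩ U), ?_, ?_⟩)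
        · simp only [mem_product, mem_compl, mem_powersetCard]
          exact ⟨hvU, inter_subset_right, b4 ▸ b2⟩
        · simp only [b4, insert_erase hv]
      have := loc hU ω _ (hlow _ inter_subset_right b3) (S \ U) sdiff_disjoint
        (disjoint_sdiff_inter _ _)
      rw [sdiff_union_inter] at this
      rw [this, sub_self]
  rw [← h1, sum_image hinj, sum_product] at hlev
  have h2 := congrArg (· * (X : ℚ[X]) ^ (2 * a)) hlev
  simp only [zero_mul, add_mul] at h2
  unfold EQ kp
  rw [add_comm, ← h2, sum_mul _ (s := Uᶜ)]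
  congr 1
  refine sum_congr rfl fun v hv => ?_
  rw [ps, mul_sum, sum_mul]
  refine sum_congr rfl fun A hA => ?_
  obtain ⟨c1, rfl⟩ := mem_powersetCard.1 hA
  have hv' := mem_compl.1 hv
  have hvA : v ∉ A := fun h => hv' (c1 h)
  have a3 : ct (flp D ω) {v} = ct ω {v} :=
    ct_congr fun u hu w => by rw [mem_singleton.1 hu, flp_out hU ω hv']
  rw [sub_mul _ _ (X ^ (2 * A.card)), poly_insert ω hvA, poly_insert _ hvA, a3]
  simp only [flp_out hU ω hv']
  ring

theorem exists_level (ω : Sym2 V → Bool) {u w : V} (huw : u ≠ w) (he : s(u, w) ∈ D) :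
    ∃ a ∈ ({1, 2} : Finset ℕ), (∀ A ⊆ U, A.card < a → ct ω A = ct (flp D ω) A) ∧
      ∃ A ∈ powersetCard a U, ct ω A ≠ ct (flp D ω) A := by
  by_cases h : ∃ v ∈ U, ct ω {v} ≠ ct (flp D ω) {v}
  · obtain ⟨v, hv, h⟩ := h
    refine ⟨1, by simp, fun A _ hA => ?_, {v}, by simp [hv], h⟩
    rw [card_eq_zero.1 (Nat.lt_one_iff.1 hA)]
    rfl
  · push Not at h
    have hu := hU _ he u (Sym2.mem_mk_left _ _)
    have hw := hU _ he w (Sym2.mem_mk_right _ _)
    refine ⟨2, by simp, fun A hA hc => ?_, {u, w}, ?_, ?_⟩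
    · have : Nonempty V := ⟨u⟩
      rcases card_le_one_iff_subset_singleton.1 (Nat.lt_succ_iff.1 hc) with ⟨x, hx⟩
      rcases subset_singleton_iff.1 hx with rfl | rfl
      · rfl
      · exact h x (hA (mem_singleton_self _))
    · simp [card_pair huw, insert_subset_iff, hu, hw]
    · have hn : u ∉ ({w} : Finset V) := by simpa using huw
      have a1 := ct_insert ω hn
      have a2 := ct_insert (flp D ω) hn
      have a3 := h u hu
      have a4 := h w hw
      have a5 : ind (flp D ω) u w + ind ω u w = 1 := by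
        unfold ind flp
        rw [if_pos he]
        cases ω s(u, w) <;> simp
      rw [sum_singleton] at a1 a2
      omega

end loc

omit [Fintype V] in
theorem fd (A : Finset V) : ∀ (W : Finset V) (Δ : Finset V → ℚ[X]) (β₀ : V → Bool), A ⊆ W →
    (∀ B ⊆ W, Δ B ≠ 0 → B.card ≤ A.card) →
    (∀ β : V → Bool, (∀ w, w ∉ A → β w = β₀ w) →
      ∑ B ∈ W.powerset, Δ B * ∏ w ∈ B, zz (β w) = 0) → Δ A = 0 := by
  induction A using Finset.induction_on with
  | empty =>
    intro W Δ β₀ _ h1 h2
    have := h2 β₀ fun _ _ => rfl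
    rw [sum_eq_single ∅] at this
    · simpa using this
    · intro B hB hne
      have : Δ B = 0 := by
        by_contra hc
        exact hne (card_eq_zero.1 (Nat.le_zero.1 (h1 B (mem_powerset.1 hB) hc)))
      rw [this, zero_mul]
    · simp
  | insert x A hx ih =>
    intro W Δ β₀ hW h1 h2
    have hxW : x ∈ W := hW (mem_insert_self _ _)
    refine ih (W.erase x) (fun B => Δ (insert x B)) β₀ ?_ ?_ ?_
    · exact fun w hw => mem_erase.2 ⟨fun e => hx (e ▸ hw), hW (mem_insert_of_mem hw)⟩
    · intro B hB hne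
      have hxB : x ∉ B := fun h => (notMem_erase x W) (hB h)
      have := h1 _ (insert_subset hxW (hB.trans (erase_subset _ _))) hne
      rw [card_insert_of_notMem hxB, card_insert_of_notMem hx] at this
      omega
    · intro β hβ
      have key : ∀ b, ∑ B ∈ (W.erase x).powerset, Δ B * ∏ w ∈ B, zz (β w) +
          zz b * ∑ B ∈ (W.erase x).powerset, Δ (insert x B) * ∏ w ∈ B, zz (β w) = 0 := by
        intro b
        have := h2 (Function.update β x b) fun w hw => by
          rw [mem_insert, not_or] at hw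
          rw [Function.update_of_ne hw.1, hβ w hw.2]
        rw [← insert_erase hxW, sum_powerset_insert (notMem_erase _ _)] at this
        have e : ∀ B ∈ (W.erase x).powerset,
            ∏ w ∈ B, zz (Function.update β x b w) = ∏ w ∈ B, zz (β w) := fun B hB =>
          prod_congr rfl fun w hw => by
            rw [Function.update_of_ne (mem_erase.1 (mem_powerset.1 hB hw)).1]
        rw [← this, mul_sum]
        congr 1
        · exact sum_congr rfl fun B hB => by rw [e B hB]
        · refine sum_congr rfl fun B hB => ?_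
          rw [prod_insert fun h => (notMem_erase x W) (mem_powerset.1 hB h), e B hB,
            Function.update_self]
          ring
      have k1 := key true
      have k2 := key false
      simp only [zz, if_true, Bool.false_eq_true, if_false] at k1 k2
      have hne : (X : ℚ[X]) ^ 2 - 1 ≠ 0 := fun h => by
        have := congrArg (eval 0) h
        simp at this
      refine (mul_eq_zero.1 ?_).resolve_left hne
      simp only [zz]
      linear_combination k2 - k1

omit [Fintype V] in
theorem ps_ne (U : Finset V) (a : ℕ) (γ γ' : Finset V → ℕ) {A : Finset V}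
    (hA : A ∈ powersetCard a U) (hne : γ A ≠ γ' A) (β₀ : V → Bool) :
    ∃ β : V → Bool, (∀ w, w ∉ A → β w = β₀ w) ∧ ps U a γ γ' β ≠ 0 := by
  by_contra hc
  push Not at hc
  obtain ⟨h1, h2⟩ := mem_powersetCard.1 hA
  have := fd A U (fun B => if B.card = a then X ^ γ B - X ^ γ' B else 0) β₀ h1
    (fun B _ hB => by
      by_contra h
      exact hB (if_neg (by omega)))
    (fun β hβ => by
      refine Eq.trans ?_ (hc β hβ)
      rw [ps, powersetCard_eq_filter, sum_filter]
      exact sum_congr rfl fun B _ => by split_ifs <;> simp)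
  simp only [h2, if_true, sub_eq_zero] at this
  have := congrArg natDegree this
  simp only [natDegree_X_pow] at this
  exact hne this

omit [Fintype V] [DecidableEq V] in
theorem ps_deg (U : Finset V) (a : ℕ) (γ γ' : Finset V → ℕ) (β : V → Bool) (M : ℕ)
    (h : ∀ A ∈ powersetCard a U, γ A ≤ M ∧ γ' A ≤ M) : (ps U a γ γ' β).natDegree ≤ M + 2 * a := by
  refine natDegree_sum_le_of_forall_le _ _ fun A hA => natDegree_mul_le.trans (add_le_add ?_ ?_)
  · refine (natDegree_sub_le _ _).trans ?_
    simpa using h A hA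
  · refine (natDegree_prod_le _ _).trans ?_
    rw [← (mem_powersetCard.1 hA).2, mul_comm, ← smul_eq_mul]
    refine sum_le_card_nsmul _ _ _ fun w _ => ?_
    unfold zz
    split_ifs <;> simp

/-- cut sizes from degrees and inner adjacencies -/
def gm (q : (V → ℕ) × (V × V → Bool)) (A : Finset V) : ℕ :=
  ∑ x ∈ A, (q.1 x - ∑ w ∈ A.erase x, if q.2 (x, w) = true then 1 else 0)

/-- the possible degrees and inner adjacencies on `U` -/
def par (U : Finset V) : Finset ((V → ℕ) × (V × V → Bool)) :=
  (Fintype.piFinset fun v => if v ∈ U then range (Fintype.card V + 1) else {0}) ×ˢ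
    Fintype.piFinset fun p => if p ∈ U ×ˢ U then univ else {false}

theorem card_pi_ite {I B : Type} [Fintype I] [DecidableEq I] (S : Finset I) (T : Finset B) (b : B) :
    (Fintype.piFinset fun i => if i ∈ S then T else {b}).card = T.card ^ S.card := by
  rw [Fintype.card_piFinset, ← prod_const, ← univ_inter S, ← prod_ite_mem]
  exact prod_congr rfl fun A _ => by rw [univ_inter]; split_ifs <;> simp

theorem card_par (U : Finset V) :
    (par U).card = (Fintype.card V + 1) ^ U.card * 2 ^ (U.card * U.card) := by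
  rw [par, card_product, card_pi_ite, card_pi_ite, card_range, card_product]
  simp

theorem exists_par (U : Finset V) (ω : Sym2 V → Bool) :
    ∃ q ∈ par U, ∀ A ⊆ U, gm q A = ct ω A := by
  refine ⟨(fun v => if v ∈ U then ct ω {v} else 0,
    fun p => if p ∈ U ×ˢ U then ω s(p.1, p.2) else false), mem_product.2 ⟨?_, ?_⟩, ?_⟩
  · refine Fintype.mem_piFinset.2 fun v => ?_
    have := ct_le ω {v}
    rw [card_singleton] at this
    by_cases h : v ∈ U
    · simp only [if_pos h, mem_range]
      omega
    · simp [h]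
  · refine Fintype.mem_piFinset.2 fun p => ?_
    by_cases h : p ∈ U ×ˢ U
    · simp only [if_pos h, mem_univ]
    · simp only [if_neg h, mem_singleton]
  · intro A hA
    refine sum_congr rfl fun x hx => ?_
    have h1 : ({x} : Finset V)ᶜ = Aᶜ ∪ A.erase x := by
      ext w
      by_cases a : w ∈ A
      · simp [a]
      · have : w ≠ x := fun e => a (e ▸ hx)
        simp [a, this]
    have h2 : ∑ w ∈ A.erase x, (if (if (x, w) ∈ U ×ˢ U then ω s(x, w) else false) = true
        then 1 else 0) = ∑ w ∈ A.erase x, ind ω x w := sum_congr rfl fun w hw => by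
      rw [if_pos (mem_product.2 ⟨hA hx, hA (mem_of_mem_erase hw)⟩)]
      rfl
    simp only [if_pos (hA hx)]
    rw [h2, ct_single, h1, sum_union (disjoint_compl_left.mono_right (erase_subset _ _)),
      Nat.add_sub_cancel]

end Pool.Agent.MP_f8284b_co.N72
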