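import Mathlib
import Pool.Agent.MP_f8284b_co.N72.Alg

set_option autoImplicit false

/-! Probability of the level identity. -/

namespace Pool.Agent.MP_f8284b_co.N72

open Finset Polynomial Pool.Agent.MP_f8284b_co.U85

variable {V : Type} [Fintype V] [DecidableEq V]

/-- the row of a vertex -/
def row (ω : Sym2 V → Bool) (v : V) : V → Bool := fun w => ω s(v, w)

def dd (β : V → Bool) (W : Finset V) : ℕ := ∑ w ∈ W, if β w = true then 1 else 0

noncomputable def vl (U : Finset V) (a : ℕ) (γ γ' : Finset V → ℕ) (u v : V) (β : V → Bool) : ℕ :=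
  dd β (({v} : Finset V)ᶜ.erase u) + (ps U a γ γ' β).natDegree

def st (v : V) (W : Finset V) : Finset (Sym2 V) := W.image fun w => s(v, w)

/-- `R` groups of `m` vertices; effects in one group share the degree and the leading sign -/
def Many (D : Finset (Sym2 V)) (U : Finset V) (a : ℕ) (u : V) (R m : ℕ) (ω : Sym2 V → Bool) :
    Prop :=
  ∃ (T : Finset ℕ) (Q : ℕ → Finset V), T.card = R ∧ ∀ t ∈ T, Q t ⊆ (insert u U)ᶜ ∧
    (Q t).card = m ∧ ∃ σ : ℚ, ∀ v ∈ Q t,
      0 < σ * (ps U a (ct ω) (ct (flp D ω)) (row ω v)).leadingCoeff ∧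
        vl U a (ct ω) (ct (flp D ω)) u v (row ω v) = t

omit [Fintype V] in
theorem mem_st {v x y : V} {W : Finset V} :
    s(x, y) ∈ st v W ↔ (x = v ∧ y ∈ W) ∨ (y = v ∧ x ∈ W) := by
  simp only [st, mem_image, Sym2.eq_iff]
  constructor
  · rintro ⟨w, hw, ⟨rfl, rfl⟩ | ⟨rfl, rfl⟩⟩
    · exact Or.inl ⟨rfl, hw⟩
    · exact Or.inr ⟨rfl, hw⟩
  · rintro (⟨rfl, h⟩ | ⟨rfl, h⟩)
    · exact ⟨y, h, Or.inl ⟨rfl, rfl⟩⟩
    · exact ⟨x, h, Or.inr ⟨rfl, rfl⟩⟩

omit [Fintype V] [DecidableEq V] in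
theorem st_inj (v : V) (W : Finset V) : Set.InjOn (fun w => s(v, w)) W :=
  fun _ _ _ _ h => Sym2.congr_right.1 h

omit [Fintype V] in
theorem card_st (v : V) (W : Finset V) : (st v W).card = W.card := card_image_of_injOn (st_inj v W)

omit [Fintype V] [DecidableEq V] in
theorem ps_congr {U : Finset V} {a : ℕ} {γ γ' δ δ' : Finset V → ℕ} {β β' : V → Bool}
    (h1 : ∀ A ∈ powersetCard a U, γ A = δ A ∧ γ' A = δ' A) (h2 : ∀ w ∈ U, β w = β' w) :
    ps U a γ γ' β = ps U a δ δ' β' :=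
  sum_congr rfl fun A hA => by
    rw [(h1 A hA).1, (h1 A hA).2,
      prod_congr rfl fun w hw => by rw [h2 w ((mem_powersetCard.1 hA).1 hw)]]

omit [Fintype V] [DecidableEq V] in
theorem dd_congr {β β' : V → Bool} {W : Finset V} (h : ∀ w ∈ W, β w = β' w) : dd β W = dd β' W :=
  sum_congr rfl fun w hw => by rw [h w hw]

theorem ct_split (ω : Sym2 V → Bool) {u v : V} (h : v ≠ u) :
    ct ω {v} = ind ω u v + dd (row ω v) (({v} : Finset V)ᶜ.erase u) := by
  rw [ct_single, ← add_sum_erase _ _ (show u ∈ ({v} : Finset V)ᶜ by simpa using h.symm),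
    ind_comm ω v u]
  rfl

theorem EQ_iff (D : Finset (Sym2 V)) (U : Finset V) (a : ℕ) {u : V} (hu : u ∉ U)
    {η ζ : Sym2 V → Bool} (h : ∀ e, e ∉ st u (insert u U)ᶜ → η e = ζ e) (hE : EQ D U a η) :
    kp U a (ct ζ) (ct (flp D ζ)) * X ^ (2 * a) +
      (X ^ ct η {u} * ps U a (ct ζ) (ct (flp D ζ)) (row ζ u) + ∑ v ∈ (insert u U)ᶜ,
        X ^ ind η u v * (X ^ dd (row ζ v) (({v} : Finset V)ᶜ.erase u) *
          ps U a (ct ζ) (ct (flp D ζ)) (row ζ v))) = 0 := by
  have h1 : ∀ x ∈ U, ∀ w, η s(x, w) = ζ s(x, w) := fun x hx w => h _ fun hc => by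
    rcases mem_st.1 hc with ⟨rfl, -⟩ | ⟨-, c⟩
    · exact hu hx
    · exact mem_compl.1 c (mem_insert_of_mem hx)
  have h2 : ∀ A ⊆ U, ct η A = ct ζ A ∧ ct (flp D η) A = ct (flp D ζ) A := fun A hA =>
    ⟨ct_congr fun x hx w => h1 x (hA hx) w,
      ct_congr fun x hx w => by unfold flp; rw [h1 x (hA hx) w]⟩
  have h3 : ∀ v, ps U a (ct η) (ct (flp D η)) (fun w => η s(v, w)) =
      ps U a (ct ζ) (ct (flp D ζ)) (row ζ v) := fun v =>
    ps_congr (fun A hA => h2 A (mem_powersetCard.1 hA).1) fun w hw => by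
      rw [row, Sym2.eq_swap, h1 w hw v]
  have h4 : kp U a (ct η) (ct (flp D η)) = kp U a (ct ζ) (ct (flp D ζ)) :=
    sum_congr rfl fun A hA => by
      rw [(h2 A (mem_powersetCard.1 hA).1).1, (h2 A (mem_powersetCard.1 hA).1).2]
  unfold EQ at hE
  simp only [h3, h4] at hE
  rw [← add_sum_erase _ _ (mem_compl.2 hu), ← compl_insert] at hE
  rw [← hE]
  congr 2
  refine sum_congr rfl fun v hv => ?_
  have hvu : v ≠ u := fun e => mem_compl.1 hv (e ▸ mem_insert_self _ _)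
  rw [ct_split η hvu, pow_add, mul_assoc]
  congr 3
  refine dd_congr fun w hw => (h _ fun hc => ?_).symm
  rcases mem_st.1 hc with ⟨c, -⟩ | ⟨c, -⟩
  · exact hvu c
  · exact (mem_erase.1 hw).1 c

theorem bits_step (D : Finset (Sym2 V)) (U : Finset V) (a : ℕ) {u : V} (hu : u ∉ U) (R m : ℕ) :
    Pr (fun ω => EQ D U a ω ∧ Many D U a u R m ω) ≤ (Fintype.card V + 1) * mid m ^ R := by
  have h1 := Pr_exists_le (range (Fintype.card V + 1))
    (fun j ω => (EQ D U a ω ∧ Many D U a u R m ω) ∧ ct ω {u} = j)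
  refine le_trans (Pr_mono fun ω hω => ?_) (h1.trans ?_)
  · have := ct_le ω {u}
    rw [card_singleton] at this
    exact ⟨_, mem_range.2 (by omega), hω, rfl⟩
  refine (sum_le_sum (g := fun _ => mid m ^ R) fun j _ => ?_).trans (le_of_eq ?_)
  swap
  · simp
  refine bits (st u (insert u U)ᶜ) _ R m fun ζ hζ => ?_
  obtain ⟨T, Q, hc, hQ⟩ := hζ.1.2
  refine ⟨T, fun t => st u (Q t), hc,
    fun t ht => ⟨by rw [card_st, (hQ t ht).2.1], image_subset_image (hQ t ht).1⟩,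
    fun t ht t' ht' hne => disjoint_left.2 fun e he he' => ?_, ?_⟩
  · obtain ⟨v, hv, rfl⟩ := mem_image.1 he
    obtain ⟨v', hv', e⟩ := mem_image.1 he'
    obtain ⟨σ, h⟩ := (hQ t ht).2.2
    obtain ⟨σ', h'⟩ := (hQ t' ht').2.2
    rw [Sym2.congr_right.1 e] at hv'
    exact hne ((h v hv).2.symm.trans (h' v hv').2)
  rintro t ht ω ω' ⟨a1, a3⟩ ⟨a2, a3'⟩ a4 a5 e he
  have b1 := EQ_iff D U a hu a3 a1.1.1
  have b2 := EQ_iff D U a hu a3' a2.1.1
  rw [a1.2] at b1
  rw [a2.2] at b2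
  set f : V → ℚ[X] := fun v => X ^ dd (row ζ v) (({v} : Finset V)ᶜ.erase u) *
    ps U a (ct ζ) (ct (flp D ζ)) (row ζ v) with hf
  have b3 : ∑ v ∈ (insert u U)ᶜ, (X ^ ind ω' u v * f v - X ^ ind ω u v * f v) = 0 := by
    rw [sum_sub_distrib]
    linear_combination b2 - b1
  have b4 : (X - 1) * ∑ v ∈ (insert u U)ᶜ, C ((ind ω' u v : ℚ) - ind ω u v) * f v = 0 := by
    rw [← b3, mul_sum]
    refine sum_congr rfl fun v _ => ?_
    unfold ind
    split_ifs <;> simp <;> ring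
  have hX : (X - 1 : ℚ[X]) ≠ 0 := X_sub_C_ne_zero 1
  have b5 := congrArg (coeff · t) ((mul_eq_zero.1 b4).resolve_left hX)
  simp only [finsetSum_coeff, coeff_C_mul, coeff_zero] at b5
  have hdeg : ∀ t' ∈ T, ∀ v ∈ Q t', (f v).natDegree = t' := fun t' ht' v hv => by
    obtain ⟨σ, h⟩ := (hQ t' ht').2.2
    have h0 : ps U a (ct ζ) (ct (flp D ζ)) (row ζ v) ≠ 0 := fun e => by
      have := (h v hv).1
      rw [e] at this
      simp at this
    rw [← (h v hv).2, hf, vl, add_comm]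
    exact natDegree_X_pow_mul _ h0
  obtain ⟨σ, hσ⟩ := (hQ t ht).2.2
  have b6 : ∑ v ∈ Q t, ((ind ω' u v : ℚ) - ind ω u v) *
      (σ * (ps U a (ct ζ) (ct (flp D ζ)) (row ζ v)).leadingCoeff) = 0 := by
    rw [← sum_subset (hQ t ht).1] at b5
    · rw [← mul_zero σ, ← b5, mul_sum]
      refine sum_congr rfl fun v hv => ?_
      rw [← hdeg t ht v hv, coeff_natDegree, hf, leadingCoeff_mul, leadingCoeff_X_pow]
      ring
    · intro v hv hvQ
      by_cases hb : ∀ t' ∈ T, t' ≤ t → s(u, v) ∉ st u (Q t')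
      · unfold ind
        rw [a4 _ hb, sub_self, zero_mul]
      · push Not at hb
        obtain ⟨t', ht', hle, hm⟩ := hb
        have hv' : v ∈ Q t' := by
          rcases mem_st.1 hm with ⟨-, c⟩ | ⟨c, -⟩
          · exact c
          · exact absurd (c ▸ mem_insert_self _ _) (mem_compl.1 hv)
        rw [coeff_eq_zero_of_natDegree_lt, mul_zero]
        rw [hdeg t' ht' v hv']
        exact lt_of_le_of_ne hle fun e => hvQ (e ▸ hv')
  obtain ⟨v, hv, rfl⟩ := mem_image.1 he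
  have b7 := (sum_eq_zero_iff_of_nonneg fun w hw => mul_nonneg (by
    have := a5 _ (mem_st.2 (Or.inl ⟨rfl, hw⟩))
    unfold ind
    revert this
    cases ω s(u, w) <;> cases ω' s(u, w) <;> simp) (hσ w hw).1.le).1 b6 v hv
  have := (mul_eq_zero.1 b7).resolve_right (hσ v hv).1.ne'
  unfold ind at this
  revert this
  cases ω s(u, v) <;> cases ω' s(u, v) <;> simp

theorem vertex_sm (U Z : Finset V) {a : ℕ} (ha : a ≤ 2) (γ γ' : Finset V → ℕ) {A : Finset V}
    (hA : A ∈ powersetCard a U) (hne : γ A ≠ γ' A) {u v : V} {k R : ℕ} (hZ : Z.card = 2 * k)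
    (hR : 64 * R ^ 2 ≤ 2 * k + 1) (hZU : Z ⊆ (insert u U)ᶜ) (hvU : v ∉ U) (hvZ : v ∉ Z)
    (T : Finset ℕ) (hT : T.card ≤ R) :
    Sm (st v (U ∪ Z)) (fun ω => ps U a γ γ' (row ω v) = 0 ∨ vl U a γ γ' u v (row ω v) ∈ T)
      (7 / 8) := by
  obtain ⟨hAU, hAa⟩ := mem_powersetCard.1 hA
  have h1 : Sm (st v A) (fun ω => ps U a γ γ' (row ω v) = 0) (3 / 4) := by
    refine subcube _ _ (by rw [card_st, hAa]; exact ha) fun η => ?_
    obtain ⟨β, b1, b2⟩ := ps_ne U a γ γ' hA hne (row η v)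
    refine ⟨fun e => if h : v ∈ e then β (Sym2.Mem.other h) else false, fun hc => b2 ?_⟩
    rw [← hc]
    refine ps_congr (fun _ _ => ⟨rfl, rfl⟩) fun w _ => ?_
    by_cases hw : w ∈ A
    · have hm : v ∈ s(v, w) := Sym2.mem_mk_left _ _
      rw [row, pw_in _ _ (mem_st.2 (Or.inl ⟨rfl, hw⟩)), dif_pos hm,
        Sym2.congr_right.1 (Sym2.other_spec hm)]
    · rw [row, pw_out, b1 w hw, row]
      intro hc
      rcases mem_st.1 hc with ⟨-, c⟩ | ⟨-, c⟩
      · exact hw c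
      · exact hvU (hAU c)
  have h2 : Sm (st v Z) (fun ω => vl U a γ γ' u v (row ω v) ∈ T) (1 / 8) := fun η => by
    have hZs : Z ⊆ ({v} : Finset V)ᶜ.erase u := fun w hw =>
      mem_erase.2 ⟨fun e => mem_compl.1 (hZU hw) (e ▸ mem_insert_self _ _),
        mem_compl.2 fun e => hvZ (mem_singleton.1 e ▸ hw)⟩
    refine le_trans (Pr_mono fun ω hω => ?_) (spread (st v Z) k R (by rw [card_st, hZ]) hR T hT
      (dd (row η v) (({v} : Finset V)ᶜ.erase u \ Z) + (ps U a γ γ' (row η v)).natDegree))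
    have e0 : ∀ w, w ∉ Z → row (pw (st v Z) ω η) v w = row η v w := fun w hw =>
      pw_out _ _ fun hc => by
        rcases mem_st.1 hc with ⟨-, c⟩ | ⟨-, c⟩
        · exact hw c
        · exact hvZ c
    have e1 : ps U a γ γ' (row (pw (st v Z) ω η) v) = ps U a γ γ' (row η v) :=
      ps_congr (fun _ _ => ⟨rfl, rfl⟩) fun w hw =>
        e0 w fun hc => mem_compl.1 (hZU hc) (mem_insert_of_mem hw)
    have e2 : dd (row (pw (st v Z) ω η) v) Z = cnt ω (st v Z) := by
      have : cnt ω (st v Z) = dd (row ω v) Z := by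
        rw [cnt, card_filter, st, sum_image (st_inj v Z)]
        rfl
      rw [this]
      exact dd_congr fun w hw => pw_in _ _ (mem_st.2 (Or.inl ⟨rfl, hw⟩))
    have e3 : dd (row (pw (st v Z) ω η) v) (({v} : Finset V)ᶜ.erase u) =
        cnt ω (st v Z) + dd (row η v) (({v} : Finset V)ᶜ.erase u \ Z) := by
      rw [← e2, ← dd_congr fun w hw => e0 w (mem_sdiff.1 hw).2, add_comm]
      exact (sum_sdiff hZs).symm
    simp only [vl, e1, e3] at hω
    rwa [← add_assoc]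
  have := (h1.mono (image_subset_image (hAU.trans subset_union_left) : _ ⊆ st v (U ∪ Z))).or
    (h2.mono (image_subset_image subset_union_right)) fun _ h => h
  norm_num at this ⊢
  exact this

theorem many_of (D : Finset (Sym2 V)) (U : Finset V) (a : ℕ) (u : V) (R m : ℕ)
    (ω : Sym2 V → Bool) (T : Finset ℕ) (hT : R ≤ T.card)
    (h : ∀ t ∈ T, 2 * m ≤ (((insert u U)ᶜ.filter fun v =>
      ps U a (ct ω) (ct (flp D ω)) (row ω v) ≠ 0).filter fun v =>
        vl U a (ct ω) (ct (flp D ω)) u v (row ω v) = t).card + 1) : Many D U a u R m ω := by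
  obtain ⟨T', h1, h2⟩ := exists_subset_card_eq hT
  have : ∀ t, ∃ Q : Finset V, t ∈ T' → Q ⊆ (insert u U)ᶜ ∧ Q.card = m ∧ ∃ σ : ℚ, ∀ v ∈ Q,
      0 < σ * (ps U a (ct ω) (ct (flp D ω)) (row ω v)).leadingCoeff ∧
        vl U a (ct ω) (ct (flp D ω)) u v (row ω v) = t := fun t => by
    by_cases ht : t ∈ T'
    swap
    · exact ⟨∅, fun h => absurd h ht⟩
    have h3 := h t (h1 ht)
    set S := ((insert u U)ᶜ.filter fun v =>
      ps U a (ct ω) (ct (flp D ω)) (row ω v) ≠ 0).filter fun v =>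
        vl U a (ct ω) (ct (flp D ω)) u v (row ω v) = t
    have h4 := card_filter_add_card_filter_not (s := S)
      (fun v => 0 < (ps U a (ct ω) (ct (flp D ω)) (row ω v)).leadingCoeff)
    rcases le_or_gt m (S.filter fun v =>
      0 < (ps U a (ct ω) (ct (flp D ω)) (row ω v)).leadingCoeff).card with c | c
    · obtain ⟨Q, q1, q2⟩ := exists_subset_card_eq c
      refine ⟨Q, fun _ => ⟨fun v hv => (mem_filter.1 (mem_filter.1 (mem_filter.1 (q1 hv)).1).1).1,
        q2, 1, fun v hv => ⟨?_, (mem_filter.1 (mem_filter.1 (q1 hv)).1).2⟩⟩⟩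
      rw [one_mul]
      exact (mem_filter.1 (q1 hv)).2
    · obtain ⟨Q, q1, q2⟩ := exists_subset_card_eq (show m ≤ (S.filter fun v =>
        ¬ 0 < (ps U a (ct ω) (ct (flp D ω)) (row ω v)).leadingCoeff).card by omega)
      refine ⟨Q, fun _ => ⟨fun v hv => (mem_filter.1 (mem_filter.1 (mem_filter.1 (q1 hv)).1).1).1,
        q2, -1, fun v hv => ⟨?_, (mem_filter.1 (mem_filter.1 (q1 hv)).1).2⟩⟩⟩
      have c1 := not_lt.1 (mem_filter.1 (q1 hv)).2
      have c2 := leadingCoeff_ne_zero.2 (mem_filter.1 (mem_filter.1 (mem_filter.1 (q1 hv)).1).1).2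
      have := lt_of_le_of_ne c1 c2
      linarith
  choose Q hQ using this
  exact ⟨T', Q, h2, hQ⟩

theorem few (D : Finset (Sym2 V)) (U : Finset V) {a : ℕ} (ha : a ≤ 2) (u : V) {R m R' : ℕ}
    (hRn : R ≤ 3 * Fintype.card V + 5) (hk : 2 * m * R' ≤ Fintype.card V) (ω : Sym2 V → Bool)
    (h1 : ¬ Many D U a u R m ω) (h2 : ¬ Many D U a u R' 1 ω) :
    ∃ T ∈ powersetCard R (range (3 * Fintype.card V + 5)),
      ∃ Y ∈ powersetCard (2 * m * R') (univ : Finset V), ∀ v ∈ (insert u U)ᶜ, v ∉ Y →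
        ps U a (ct ω) (ct (flp D ω)) (row ω v) = 0 ∨
          vl U a (ct ω) (ct (flp D ω)) u v (row ω v) ∈ T := by
  set n := Fintype.card V
  set N := (insert u U)ᶜ.filter fun v => ps U a (ct ω) (ct (flp D ω)) (row ω v) ≠ 0
  set g := fun v => vl U a (ct ω) (ct (flp D ω)) u v (row ω v)
  have hI : (N.image g).card ≤ R' := by
    by_contra hc
    refine h2 (many_of D U a u R' 1 ω _ (not_le.1 hc).le fun t ht => ?_)
    obtain ⟨v, hv, rfl⟩ := mem_image.1 ht
    exact Nat.succ_le_succ (card_pos.2 ⟨v, mem_filter.2 ⟨hv, rfl⟩⟩)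
  set T := (N.image g).filter fun t => 2 * m ≤ (N.filter fun v => g v = t).card + 1
  have hT : T.card ≤ R := by
    by_contra hc
    exact h1 (many_of D U a u R m ω _ (not_le.1 hc).le fun t ht => (mem_filter.1 ht).2)
  have hY : (N.filter fun v => g v ∉ T).card ≤ 2 * m * R' := by
    refine (card_le_mul_card_image_of_maps_to (f := g) (t := N.image g \ T) (fun v hv => ?_) (2 * m)
      fun t ht => ?_).trans (Nat.mul_le_mul_left _ ((card_le_card sdiff_subset).trans hI))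
    · exact mem_sdiff.2 ⟨mem_image_of_mem _ (mem_filter.1 hv).1, (mem_filter.1 hv).2⟩
    · have c1 : ¬ 2 * m ≤ (N.filter fun v => g v = t).card + 1 := fun h =>
        (mem_sdiff.1 ht).2 (mem_filter.2 ⟨(mem_sdiff.1 ht).1, h⟩)
      have c2 := card_le_card
        (filter_subset_filter (fun v => g v = t) (filter_subset (fun v => g v ∉ T) N))
      omega
  have hb : ∀ η, ∀ B ∈ powersetCard a U, ct η B ≤ 2 * n := fun η B hB =>
    (ct_le η B).trans (Nat.mul_le_mul_right _ ((mem_powersetCard.1 hB).2.trans_le ha))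
  obtain ⟨T', t1, t2, t3⟩ := exists_subsuperset_card_eq (t := range (3 * n + 5)) (fun t ht => by
    obtain ⟨v, -, rfl⟩ := mem_image.1 (mem_filter.1 ht).1
    have d1 := ps_deg U a (ct ω) (ct (flp D ω)) (row ω v) (2 * n)
      fun B hB => ⟨hb _ B hB, hb _ B hB⟩
    have d2 : dd (row ω v) (({v} : Finset V)ᶜ.erase u) ≤ n :=
      (sum_le_card_nsmul _ _ 1 fun w _ => by split_ifs <;> simp).trans
        (by simpa using card_le_univ _)
    simp only [mem_range, g, vl]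
    omega) hT (by rwa [card_range])
  obtain ⟨Y, y1, y2, y3⟩ := exists_subsuperset_card_eq (subset_univ _) hY hk
  refine ⟨T', mem_powersetCard.2 ⟨t2, t3⟩, Y, mem_powersetCard.2 ⟨y2, y3⟩, fun v hv hvY => ?_⟩
  by_contra hc
  rw [not_or] at hc
  exact hvY (y1 (mem_filter.2 ⟨mem_filter.2 ⟨hv, hc.1⟩, fun h => hc.2 (t1 h)⟩))

theorem many_step (D : Finset (Sym2 V)) (U Z : Finset V) {a : ℕ} (ha : a ≤ 2) {u : V}
    {k R m R' p : ℕ} (hZ : Z.card = 2 * k) (hR : 64 * R ^ 2 ≤ 2 * k + 1) (hZU : Z ⊆ (insert u U)ᶜ)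
    (hRn : R ≤ 3 * Fintype.card V + 5) (hk : 2 * m * R' ≤ Fintype.card V)
    (hp : p + 2 * k + 2 * m * R' ≤ (insert u U)ᶜ.card) :
    Pr (fun ω => (∃ A ∈ powersetCard a U, ct ω A ≠ ct (flp D ω) A) ∧
        ¬ Many D U a u R m ω ∧ ¬ Many D U a u R' 1 ω) ≤
      (((Fintype.card V + 1) ^ U.card * 2 ^ (U.card * U.card)) ^ 2 *
        ((3 * Fintype.card V + 5) ^ R * Fintype.card V ^ (2 * m * R')) : ℕ) * (7 / 8) ^ p := by
  have h1 := Pr_exists_le ((par U ×ˢ par U) ×ˢ (powersetCard R (range (3 * Fintype.card V + 5)) ×ˢ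
      powersetCard (2 * m * R') (univ : Finset V)))
    (fun q ω => (∃ A ∈ powersetCard a U, gm q.1.1 A ≠ gm q.1.2 A) ∧
      ∀ v ∈ ((insert u U)ᶜ \ Z) \ q.2.2, ps U a (gm q.1.1) (gm q.1.2) (row ω v) = 0 ∨
        vl U a (gm q.1.1) (gm q.1.2) u v (row ω v) ∈ q.2.1)
  refine le_trans (Pr_mono fun ω hω => ?_) (h1.trans ?_)
  · obtain ⟨⟨A, hA, hne⟩, hM, hM'⟩ := hω
    obtain ⟨T, hT, Y, hY, h⟩ := few D U ha u hRn hk ω hM hM'
    obtain ⟨q, hq, e⟩ := exists_par U ω
    obtain ⟨q', hq', e'⟩ := exists_par U (flp D ω)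
    refine ⟨((q, q'), (T, Y)), mem_product.2 ⟨mem_product.2 ⟨hq, hq'⟩, mem_product.2 ⟨hT, hY⟩⟩,
      ⟨A, hA, ?_⟩, fun v hv => ?_⟩
    · have := (mem_powersetCard.1 hA).1
      simpa only [e A this, e' A this] using hne
    · have e2 : ps U a (gm q) (gm q') (row ω v) = ps U a (ct ω) (ct (flp D ω)) (row ω v) :=
        ps_congr (fun B hB => ⟨e B (mem_powersetCard.1 hB).1, e' B (mem_powersetCard.1 hB).1⟩)
          fun _ _ => rfl
      have := h v (mem_sdiff.1 (mem_sdiff.1 hv).1).1 (mem_sdiff.1 hv).2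
      simpa only [vl, e2] using this
  refine (sum_le_sum (g := fun _ => ((7 : ℝ) / 8) ^ p) fun q hq => ?_).trans ?_
  · by_cases hne : ∃ A ∈ powersetCard a U, gm q.1.1 A ≠ gm q.1.2 A
    · obtain ⟨A, hA, hne⟩ := hne
      have hq2 := mem_product.1 (mem_product.1 hq).2
      have hv : ∀ v ∈ ((insert u U)ᶜ \ Z) \ q.2.2, v ∉ U ∧ v ∉ Z := fun v hv =>
        ⟨fun h => mem_compl.1 (mem_sdiff.1 (mem_sdiff.1 hv).1).1 (mem_insert_of_mem h),
          (mem_sdiff.1 (mem_sdiff.1 hv).1).2⟩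
      refine le_trans (Pr_mono fun ω hω => hω.2) ((seq (fun v => st v (U ∪ Z)) _ (by norm_num) _
        (fun v h => vertex_sm U Z ha _ _ hA hne hZ hR hZU (hv v h).1 (hv v h).2 _
          (mem_powersetCard.1 hq2.1).2.le) fun i hi j hj hij ω η h => ?_).trans ?_)
      · have : row (pw (st i (U ∪ Z)) ω η) j = row η j := funext fun w => pw_out _ _ fun hc => by
          rcases mem_st.1 hc with ⟨c, -⟩ | ⟨-, c⟩
          · exact hij c.symm
          · exact (mem_union.1 c).elim (hv j hj).1 (hv j hj).2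
        rwa [this] at h
      · refine pow_le_pow_of_le_one (by norm_num) (by norm_num) ?_
        have c1 := le_card_sdiff Z (insert u U)ᶜ
        have c2 := le_card_sdiff q.2.2 ((insert u U)ᶜ \ Z)
        have c3 := (mem_powersetCard.1 hq2.2).2
        omega
    · rw [Pr_eq_zero fun ω hω => hne hω.1]
      positivity
  · rw [sum_const, nsmul_eq_mul, card_product, card_product, card_product, card_par,
      card_powersetCard, card_powersetCard, card_range, card_univ, ← sq]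
    have c1 := Nat.choose_le_pow (3 * Fintype.card V + 5) R
    have c2 := Nat.choose_le_pow (Fintype.card V) (2 * m * R')
    gcongr

end Pool.Agent.MP_f8284b_co.N72
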