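import Mathlib
import Pool.Agent.MP_f8284b_co.Levels
import Pool.Agent.MP_f8284b_co.N72.Ev

set_option autoImplicit false

/-! Separation of the levels of cut sizes and the deterministic reduction. -/

namespace Pool.Agent.MP_f8284b_co.N72

open Finset Polynomial Pool.Agent.MP_f8284b_co.U85

variable {V : Type} [Fintype V] [DecidableEq V]

def cs (S : Finset V) : Finset (Sym2 V) := (S ×ˢ Sᶜ).image fun p => s(p.1, p.2)

theorem cs_inj (S : Finset V) :
    Set.InjOn (fun p : V × V => s(p.1, p.2)) (S ×ˢ Sᶜ : Finset _) := by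
  rintro ⟨u, v⟩ hp ⟨u', v'⟩ hp' e
  simp only [coe_product, Set.mem_prod, mem_coe, mem_compl] at hp hp'
  rcases Sym2.eq_iff.1 e with ⟨rfl, rfl⟩ | ⟨rfl, rfl⟩
  · rfl
  · exact absurd hp.1 hp'.2

theorem card_cs (S : Finset V) : (cs S).card = S.card * Sᶜ.card := by
  rw [cs, card_image_of_injOn (cs_inj S), card_product]

theorem ct_cnt (ω : Sym2 V → Bool) (S : Finset V) : ct ω S = cnt ω (cs S) := by
  rw [cnt, card_filter, cs, sum_image (cs_inj S), sum_product]
  rfl

theorem ct_compl (ω : Sym2 V → Bool) (S : Finset V) : ct ω Sᶜ = ct ω S := by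
  rw [ct, compl_compl, sum_comm]
  exact sum_congr rfl fun u _ => sum_congr rfl fun v _ => ind_comm _ _ _

/-- all cuts are near their mean, up to an additive error -/
def Nice (x : ℕ) (ω : Sym2 V → Bool) : Prop := ∀ S : Finset V,
  45 * (S.card * Sᶜ.card) ≤ 100 * ct ω S + x ∧ 100 * ct ω S ≤ 55 * (S.card * Sᶜ.card) + x

theorem nice_prob : Pr (fun ω : Sym2 V → Bool => ¬ Nice 0 ω) ≤
    2 * ((1 + Real.exp (-(Fintype.card V : ℝ) / 400)) ^ Fintype.card V - 1) := by
  set τ := Real.exp (-(Fintype.card V : ℝ) / 400) with hτ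
  have h1 := Pr_exists_le ((univ : Finset (Finset V)).erase ∅) (fun S (ω : Sym2 V → Bool) =>
    S.card ≤ Sᶜ.card ∧
      ¬ (45 * (cs S).card ≤ 100 * cnt ω (cs S) ∧ 100 * cnt ω (cs S) ≤ 55 * (cs S).card))
  refine le_trans (Pr_mono fun ω hω => ?_) (h1.trans ?_)
  · obtain ⟨S, hS⟩ := not_forall.1 hω
    have key : ∀ S : Finset V, ¬ (45 * (S.card * Sᶜ.card) ≤ 100 * ct ω S + 0 ∧
        100 * ct ω S ≤ 55 * (S.card * Sᶜ.card) + 0) → S.card ≤ Sᶜ.card →
        ∃ S ∈ (univ : Finset (Finset V)).erase ∅, S.card ≤ Sᶜ.card ∧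
          ¬ (45 * (cs S).card ≤ 100 * cnt ω (cs S) ∧ 100 * cnt ω (cs S) ≤ 55 * (cs S).card) := by
      intro S hS hc
      refine ⟨S, mem_erase.2 ⟨?_, mem_univ _⟩, hc, by rwa [card_cs, ← ct_cnt]⟩
      rintro rfl
      simp [ct] at hS
    rcases le_total S.card Sᶜ.card with h | h
    · exact key S hS h
    · exact key Sᶜ (by rwa [ct_compl, compl_compl, mul_comm Sᶜ.card]) (by rwa [compl_compl])
  have h2 : ∑ S : Finset V, τ ^ S.card = (1 + τ) ^ Fintype.card V := by
    have := prod_one_add (f := fun _ : V => τ) univ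
    simpa using this.symm
  rw [← add_sum_erase _ _ (mem_univ ∅), card_empty, pow_zero] at h2
  rw [← h2, add_sub_cancel_left, mul_sum]
  refine sum_le_sum fun S _ => ?_
  by_cases hc : S.card ≤ Sᶜ.card
  · refine le_trans (Pr_mono fun ω hω => hω.2) ((chern (cs S)).trans ?_)
    rw [hτ, ← Real.exp_nat_mul, card_cs]
    have h3 : (S.card : ℝ) + Sᶜ.card = Fintype.card V := by exact_mod_cast card_add_card_compl S
    have h4 : (S.card : ℝ) ≤ Sᶜ.card := by exact_mod_cast hc
    gcongr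
    push_cast
    nlinarith [mul_le_mul_of_nonneg_left h4 (Nat.cast_nonneg (α := ℝ) S.card)]
  · rw [Pr_eq_zero fun ω hω => hc hω.1]
    positivity

theorem cnt_near {E : Type} [DecidableEq E] {ω η : E → Bool} {D : Finset E}
    (h : ∀ e, e ∉ D → ω e = η e) (F : Finset E) : cnt ω F ≤ cnt η F + D.card := by
  refine le_trans (card_le_card fun e he => ?_) (card_union_le _ _)
  by_cases hd : e ∈ D
  · exact mem_union_right _ hd
  · exact mem_union_left _ (mem_filter.2 ⟨(mem_filter.1 he).1, h e hd ▸ (mem_filter.1 he).2⟩)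

theorem Nice.flp {ω : Sym2 V → Bool} (h : Nice 0 ω) (D : Finset (Sym2 V)) {x : ℕ}
    (hD : 100 * D.card ≤ x) : Nice x (flp D ω) := fun S => by
  have a1 := cnt_near (ω := ω) (η := N72.flp D ω) (D := D) (fun e he => (if_neg he).symm) (cs S)
  have a2 := cnt_near (ω := N72.flp D ω) (η := ω) (D := D) (fun e he => if_neg he) (cs S)
  have := h S
  rw [← ct_cnt, ← ct_cnt] at a1 a2
  omega

theorem Nice.win {ω : Sym2 V → Bool} (h : Nice (4 * Fintype.card V) ω) (hn : 200 ≤ Fintype.card V)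
    {a : ℕ} (ha : a ∈ ({1, 2} : Finset ℕ)) (S : Finset V) :
    ((5 * a + 2) * Fintype.card V < 10 * ct ω S ∧ 10 * ct ω S < (5 * a + 7) * Fintype.card V) ↔
      (S.card = a + 1 ∨ S.card + (a + 1) = Fintype.card V) := by
  have h1 := h S
  have h2 := card_add_card_compl S
  generalize S.card = k at *
  generalize Sᶜ.card = m at *
  generalize ct ω S = c at *
  generalize Fintype.card V = n at *
  have h3 : k ≤ 3 ∨ m ≤ 3 ∨ 4 * (k + m) ≤ k * m + 16 := by
    by_contra hc
    push Not at hc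
    obtain ⟨k', rfl⟩ : ∃ k', k = k' + 4 := ⟨k - 4, by omega⟩
    obtain ⟨m', rfl⟩ : ∃ m', m = m' + 4 := ⟨m - 4, by omega⟩
    nlinarith [hc.2.2, Nat.zero_le (k' * m')]
  simp only [mem_insert, mem_singleton] at ha
  rcases h3 with h3 | h3 | h3
  · interval_cases k <;> rcases ha with rfl | rfl <;> omega
  · interval_cases m <;> rcases ha with rfl | rfl <;> omega
  · by_cases h4 : k ≤ 3
    · interval_cases k <;> rcases ha with rfl | rfl <;> omega
    by_cases h5 : m ≤ 3
    · interval_cases m <;> rcases ha with rfl | rfl <;> omega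
    generalize k * m = p at *
    rcases ha with rfl | rfl <;> omega

theorem gcut_ct {G : SimpleGraph V} {ω : Sym2 V → Bool}
    (h : ∀ u w, G.Adj u w ↔ u ≠ w ∧ ω s(u, w) = true) (S : Finset V) : gcut G S = ct ω S := by
  rw [gcut_eq, ct]
  refine sum_congr rfl fun u hu => ?_
  rw [card_filter]
  refine sum_congr (by ext; simp) fun v hv => ?_
  have : u ≠ v := fun e => mem_compl.1 hv (e ▸ hu)
  simp [ind, h, this]

/-- test function of one cut size in the window of level `a + 1` -/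
def tf (n a j c : ℕ) : ℚ :=
  if ((5 * a + 2) * n < 10 * c ∧ 10 * c < (5 * a + 7) * n) ∧ j = c then 1 else 0

theorem level_sum {G : SimpleGraph V} {ω : Sym2 V → Bool}
    (h : ∀ u w, G.Adj u w ↔ u ≠ w ∧ ω s(u, w) = true) (hN : Nice (4 * Fintype.card V) ω)
    (hn : 200 ≤ Fintype.card V) {a : ℕ} (ha : a ∈ ({1, 2} : Finset ℕ)) (j : ℕ) :
    ∑ S : Finset V, tf (Fintype.card V) a j (gcut G S) =
      2 * (∑ S ∈ powersetCard (a + 1) univ, (X : ℚ[X]) ^ ct ω S).coeff j := by
  have ha' : a ≤ 2 := by simp only [mem_insert, mem_singleton] at ha; omega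
  rw [sum_level G _ (a + 1) (by omega), finsetSum_coeff]
  · congr 1
    refine sum_congr (by congr) fun S hS => ?_
    rw [gcut_ct h, coeff_X_pow, tf]
    simp only [(hN.win hn ha S).2 (Or.inl (mem_powersetCard.1 hS).2), true_and]
  · intro S hS
    rw [gcut_ct h] at hS
    by_contra hc
    exact hS (if_neg fun hh => hc ((hN.win hn ha S).1 hh.1))

/-- the touched vertices -/
def tv (D : Finset (Sym2 V)) : Finset V := D.biUnion Sym2.toFinset

omit [Fintype V] in
theorem card_tv (D : Finset (Sym2 V)) : (tv D).card ≤ 2 * D.card := by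
  refine card_biUnion_le.trans ?_
  rw [mul_comm, ← smul_eq_mul]
  refine sum_le_card_nsmul _ _ _ fun e _ => ?_
  rw [Sym2.card_toFinset]
  split_ifs <;> simp

/-- the bad event for the edit set `D` and the level `a + 1` -/
def Bad (D : Finset (Sym2 V)) (a : ℕ) (ω : Sym2 V → Bool) : Prop :=
  (∃ A ∈ powersetCard a (tv D), ct ω A ≠ ct (flp D ω) A) ∧ EQ D (tv D) a ω

theorem det {G H : SimpleGraph V} {ω : Sym2 V → Bool} (D : Finset (Sym2 V))
    (h : ∀ u w, G.Adj u w ↔ u ≠ w ∧ ω s(u, w) = true)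
    (hD : ∀ e, e ∈ D ↔ e ∈ symmDiff G.edgeSet H.edgeSet) (hne : H ≠ G)
    (hn : 200 ≤ Fintype.card V) (hr : 25 * D.card ≤ Fintype.card V) (hN : Nice 0 ω)
    (hT : ∀ φ : ℕ → ℚ, ∑ S : Finset V, φ (gcut G S) = ∑ S : Finset V, φ (gcut H S)) :
    ∃ a ∈ ({1, 2} : Finset ℕ), Bad D a ω := by
  have hD' : ∀ u w, s(u, w) ∈ D ↔ ¬ (G.Adj u w ↔ H.Adj u w) := fun u w => by
    rw [hD, Set.mem_symmDiff, SimpleGraph.mem_edgeSet, SimpleGraph.mem_edgeSet]
    tauto
  have h' : ∀ u w, H.Adj u w ↔ u ≠ w ∧ flp D ω s(u, w) = true := fun u w => by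
    have a1 := hD' u w
    have a2 := h u w
    have a3 : H.Adj u w → u ≠ w := fun x => x.ne
    unfold flp
    by_cases b : s(u, w) ∈ D
    · rw [if_pos b]
      cases c : ω s(u, w) <;> simp only [c] at a2 <;> simp <;> tauto
    · rw [if_neg b]
      tauto
  have hU : ∀ e ∈ D, ∀ v ∈ e, v ∈ tv D := fun e he v hv =>
    mem_biUnion.2 ⟨e, he, Sym2.mem_toFinset.2 hv⟩
  obtain ⟨u, w, huw⟩ : ∃ u w, ¬ (G.Adj u w ↔ H.Adj u w) := by
    by_contra hc
    push Not at hc
    exact hne (SimpleGraph.ext (funext fun u => funext fun w => propext (hc u w).symm))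
  have hne' : u ≠ w := by
    rintro rfl
    simp at huw
  obtain ⟨a, ha, h1, h2⟩ := exists_level hU ω hne' ((hD' u w).2 huw)
  refine ⟨a, ha, h2, level_eq hU ω a h1 ?_⟩
  rw [sum_sub_distrib, sub_eq_zero]
  ext j
  have n1 : Nice (4 * Fintype.card V) ω := fun S => by have := hN S; omega
  have b1 := level_sum h n1 hn ha j
  have b2 := level_sum h' (hN.flp D (by omega)) hn ha j
  rw [hT, b2] at b1
  linarith

end Pool.Agent.MP_f8284b_co.N72
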