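import Mathlib
import Pool.Agent.MP_f8284b_co.N72.Ev

set_option autoImplicit false

/-! The anti-concentration step for an arbitrary family of effect polynomials. -/

namespace Pool.Agent.MP_f8284b_co.N72

open Finset Polynomial Pool.Agent.MP_f8284b_co.U85

variable {V : Type} [Fintype V] [DecidableEq V]

/-- `R` groups of `m` vertices; effects in one group share the degree and the leading sign -/
def Grp (W : Finset V) (f : V → ℚ[X]) (R m : ℕ) : Prop :=
  ∃ (T : Finset ℕ) (Q : ℕ → Finset V), T.card = R ∧ ∀ t ∈ T, Q t ⊆ W ∧ (Q t).card = m ∧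
    ∃ σ : ℚ, ∀ v ∈ Q t, 0 < σ * (f v).leadingCoeff ∧ (f v).natDegree = t

omit [Fintype V] [DecidableEq V] in
theorem Grp.congr {W : Finset V} {f f' : V → ℚ[X]} {R m : ℕ} (h : Grp W f R m)
    (e : ∀ v ∈ W, f v = f' v) : Grp W f' R m := by
  obtain ⟨T, Q, h1, h2⟩ := h
  refine ⟨T, Q, h1, fun t ht => ?_⟩
  obtain ⟨a, b, σ, c⟩ := h2 t ht
  exact ⟨a, b, σ, fun v hv => e v (a hv) ▸ c v hv⟩

theorem bits_gen (u : V) (W : Finset V) (hu : u ∉ W) (f : (Sym2 V → Bool) → V → ℚ[X])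
    (A : (Sym2 V → Bool) → Prop) (R m : ℕ)
    (h : ∀ ζ η η', A η → A η' → (∀ e, e ∉ st u W → η e = ζ e) → (∀ e, e ∉ st u W → η' e = ζ e) →
      (X - 1) * ∑ v ∈ W, C ((ind η' u v : ℚ) - ind η u v) * f ζ v = 0) :
    Pr (fun ω => A ω ∧ Grp W (f ω) R m) ≤ mid m ^ R := by
  refine bits (st u W) _ R m fun ζ hζ => ?_
  obtain ⟨T, Q, hc, hQ⟩ := hζ.2
  refine ⟨T, fun t => st u (Q t), hc,
    fun t ht => ⟨by rw [card_st, (hQ t ht).2.1], image_subset_image (hQ t ht).1⟩,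
    fun t ht t' ht' hne => disjoint_left.2 fun e he he' => ?_, ?_⟩
  · obtain ⟨v, hv, rfl⟩ := mem_image.1 he
    obtain ⟨v', hv', e⟩ := mem_image.1 he'
    obtain ⟨σ, h⟩ := (hQ t ht).2.2
    obtain ⟨σ', h'⟩ := (hQ t' ht').2.2
    rw [Sym2.congr_right.1 e] at hv'
    exact hne ((h v hv).2.symm.trans (h' v hv').2)
  rintro t ht ω ω' ⟨a1, a3⟩ ⟨a2, a3'⟩ a4 a5 e he
  have hX : (X - 1 : ℚ[X]) ≠ 0 := X_sub_C_ne_zero 1
  have b5 := congrArg (coeff · t)
    ((mul_eq_zero.1 (h ζ ω ω' a1.1 a2.1 a3 a3')).resolve_left hX)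
  simp only [finsetSum_coeff, coeff_C_mul, coeff_zero] at b5
  have hdeg : ∀ t' ∈ T, ∀ v ∈ Q t', (f ζ v).natDegree = t' := fun t' ht' v hv => by
    obtain ⟨σ, h⟩ := (hQ t' ht').2.2
    exact (h v hv).2
  obtain ⟨σ, hσ⟩ := (hQ t ht).2.2
  have b6 : ∑ v ∈ Q t, ((ind ω' u v : ℚ) - ind ω u v) * (σ * (f ζ v).leadingCoeff) = 0 := by
    rw [← sum_subset (hQ t ht).1] at b5
    · rw [← mul_zero σ, ← b5, mul_sum]
      refine sum_congr rfl fun v hv => ?_
      rw [← hdeg t ht v hv, coeff_natDegree]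
      ring
    · intro v hv hvQ
      by_cases hb : ∀ t' ∈ T, t' ≤ t → s(u, v) ∉ st u (Q t')
      · unfold ind
        rw [a4 _ hb, sub_self, zero_mul]
      · push Not at hb
        obtain ⟨t', ht', hle, hm⟩ := hb
        have hv' : v ∈ Q t' := by
          rcases mem_st.1 hm with ⟨-, c⟩ | ⟨c, -⟩
          · exact c
          · exact absurd (c ▸ hv) hu
        rw [coeff_eq_zero_of_natDegree_lt, mul_zero]
        rw [hdeg t' ht' v hv']
        exact lt_of_le_of_ne hle fun e => hvQ (e ▸ hv')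
  obtain ⟨v, hv, rfl⟩ := mem_image.1 he
  have b7 := (sum_eq_zero_iff_of_nonneg fun w hw => mul_nonneg (by
    have := a5 _ (mem_st.2 (Or.inl ⟨rfl, hw⟩))
    unfold ind
    revert this
    cases ω s(u, w) <;> cases ω' s(u, w) <;> simp) (hσ w hw).1.le).1 b6 v hv
  have := (mul_eq_zero.1 b7).resolve_right (hσ v hv).1.ne'
  unfold ind at this
  revert this
  cases ω s(u, v) <;> cases ω' s(u, v) <;> simp

omit [Fintype V] [DecidableEq V] in
theorem grp_of (W : Finset V) (f : V → ℚ[X]) (R m : ℕ) (T : Finset ℕ) (hT : R ≤ T.card)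
    (h : ∀ t ∈ T, 2 * m ≤
      ((W.filter fun v => f v ≠ 0).filter fun v => (f v).natDegree = t).card + 1) :
    Grp W f R m := by
  obtain ⟨T', h1, h2⟩ := exists_subset_card_eq hT
  have : ∀ t, ∃ Q : Finset V, t ∈ T' → Q ⊆ W ∧ Q.card = m ∧ ∃ σ : ℚ, ∀ v ∈ Q,
      0 < σ * (f v).leadingCoeff ∧ (f v).natDegree = t := fun t => by
    by_cases ht : t ∈ T'
    swap
    · exact ⟨∅, fun h => absurd h ht⟩
    have h3 := h t (h1 ht)
    set S := (W.filter fun v => f v ≠ 0).filter fun v => (f v).natDegree = t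
    have h4 := card_filter_add_card_filter_not (s := S) (fun v => 0 < (f v).leadingCoeff)
    rcases le_or_gt m (S.filter fun v => 0 < (f v).leadingCoeff).card with c | c
    · obtain ⟨Q, q1, q2⟩ := exists_subset_card_eq c
      refine ⟨Q, fun _ => ⟨fun v hv => (mem_filter.1 (mem_filter.1 (mem_filter.1 (q1 hv)).1).1).1,
        q2, 1, fun v hv => ⟨?_, (mem_filter.1 (mem_filter.1 (q1 hv)).1).2⟩⟩⟩
      rw [one_mul]
      exact (mem_filter.1 (q1 hv)).2
    · obtain ⟨Q, q1, q2⟩ := exists_subset_card_eq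
        (show m ≤ (S.filter fun v => ¬ 0 < (f v).leadingCoeff).card by omega)
      refine ⟨Q, fun _ => ⟨fun v hv => (mem_filter.1 (mem_filter.1 (mem_filter.1 (q1 hv)).1).1).1,
        q2, -1, fun v hv => ⟨?_, (mem_filter.1 (mem_filter.1 (q1 hv)).1).2⟩⟩⟩
      have c1 := not_lt.1 (mem_filter.1 (q1 hv)).2
      have c2 := leadingCoeff_ne_zero.2 (mem_filter.1 (mem_filter.1 (mem_filter.1 (q1 hv)).1).1).2
      have := lt_of_le_of_ne c1 c2
      linarith
  choose Q hQ using this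
  exact ⟨T', Q, h2, hQ⟩

omit [DecidableEq V] in
theorem few_gen (W : Finset V) (f : V → ℚ[X]) {R m R' M : ℕ} (hM : ∀ v, (f v).natDegree < M)
    (hRn : R ≤ M) (hk : 2 * m * R' ≤ Fintype.card V) (h1 : ¬ Grp W f R m) (h2 : ¬ Grp W f R' 1) :
    ∃ T ∈ powersetCard R (range M), ∃ Y ∈ powersetCard (2 * m * R') (univ : Finset V),
      ∀ v ∈ W, v ∉ Y → f v = 0 ∨ (f v).natDegree ∈ T := by
  set N := W.filter fun v => f v ≠ 0
  set g := fun v => (f v).natDegree
  have hI : (N.image g).card ≤ R' := by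
    by_contra hc
    refine h2 (grp_of W f R' 1 _ (not_le.1 hc).le fun t ht => ?_)
    obtain ⟨v, hv, rfl⟩ := mem_image.1 ht
    exact Nat.succ_le_succ (card_pos.2 ⟨v, mem_filter.2 ⟨hv, rfl⟩⟩)
  set T := (N.image g).filter fun t => 2 * m ≤ (N.filter fun v => g v = t).card + 1
  have hT : T.card ≤ R := by
    by_contra hc
    exact h1 (grp_of W f R m _ (not_le.1 hc).le fun t ht => (mem_filter.1 ht).2)
  have hY : (N.filter fun v => g v ∉ T).card ≤ 2 * m * R' := by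
    refine (card_le_mul_card_image_of_maps_to (f := g) (t := N.image g \ T) (fun v hv => ?_) (2 * m)
      fun t ht => ?_).trans (Nat.mul_le_mul_left _ ((card_le_card sdiff_subset).trans hI))
    · exact mem_sdiff.2 ⟨mem_image_of_mem _ (mem_filter.1 hv).1, (mem_filter.1 hv).2⟩
    · have c1 : ¬ 2 * m ≤ (N.filter fun v => g v = t).card + 1 := fun h =>
        (mem_sdiff.1 ht).2 (mem_filter.2 ⟨(mem_sdiff.1 ht).1, h⟩)
      have c2 := card_le_card
        (filter_subset_filter (fun v => g v = t) (filter_subset (fun v => g v ∉ T) N))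
      omega
  obtain ⟨T', t1, t2, t3⟩ := exists_subsuperset_card_eq (t := range M) (fun t ht => by
    obtain ⟨v, -, rfl⟩ := mem_image.1 (mem_filter.1 ht).1
    exact mem_range.2 (hM v)) hT (by rwa [card_range])
  obtain ⟨Y, y1, y2, y3⟩ := exists_subsuperset_card_eq (subset_univ _) hY hk
  refine ⟨T', mem_powersetCard.2 ⟨t2, t3⟩, Y, mem_powersetCard.2 ⟨y2, y3⟩, fun v hv hvY => ?_⟩
  by_contra hc
  rw [not_or] at hc
  exact hvY (y1 (mem_filter.2 ⟨mem_filter.2 ⟨hv, hc.1⟩, fun h => hc.2 (t1 h)⟩))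

theorem many_gen (W P : Finset V) (hP : P ⊆ W) (φ : V → (V → Bool) → ℚ[X])
    (F : V → Finset (Sym2 V)) {R m R' M p : ℕ} (hM : ∀ v β, (φ v β).natDegree < M) (hRn : R ≤ M)
    (hk : 2 * m * R' ≤ Fintype.card V) (hp : p + 2 * m * R' ≤ P.card)
    (hS : ∀ v ∈ P, ∀ T : Finset ℕ, T.card ≤ R → Sm (F v)
      (fun ω => φ v (row ω v) = 0 ∨ (φ v (row ω v)).natDegree ∈ T) (7 / 8))
    (hi : ∀ i ∈ P, ∀ j ∈ P, i ≠ j → ∀ w, s(j, w) ∉ F i) :
    Pr (fun ω => ¬ Grp W (fun v => φ v (row ω v)) R m ∧ ¬ Grp W (fun v => φ v (row ω v)) R' 1) ≤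
      (M ^ R * Fintype.card V ^ (2 * m * R') : ℕ) * (7 / 8) ^ p := by
  have h1 := Pr_exists_le (powersetCard R (range M) ×ˢ powersetCard (2 * m * R') (univ : Finset V))
    (fun q ω => ∀ v ∈ P \ q.2, φ v (row ω v) = 0 ∨ (φ v (row ω v)).natDegree ∈ q.1)
  refine le_trans (Pr_mono fun ω hω => ?_) (h1.trans ?_)
  · obtain ⟨T, hT, Y, hY, h⟩ := few_gen W _ (fun v => hM v _) hRn hk hω.1 hω.2
    exact ⟨(T, Y), mem_product.2 ⟨hT, hY⟩, fun v hv => h v (hP (mem_sdiff.1 hv).1) (mem_sdiff.1 hv).2⟩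
  refine (sum_le_sum (g := fun _ => ((7 : ℝ) / 8) ^ p) fun q hq => ?_).trans ?_
  · have hq2 := mem_product.1 hq
    refine (seq F _ (by norm_num) _ (fun v h => hS v (mem_sdiff.1 h).1 _
      (mem_powersetCard.1 hq2.1).2.le) fun i a1 j a2 hij ω η h => ?_).trans ?_
    · have : row (pw (F i) ω η) j = row η j := funext fun w =>
        pw_out _ _ (hi i (mem_sdiff.1 a1).1 j (mem_sdiff.1 a2).1 hij w)
      rwa [this] at h
    · refine pow_le_pow_of_le_one (by norm_num) (by norm_num) ?_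
      have c2 := le_card_sdiff q.2 P
      have c3 := (mem_powersetCard.1 hq2.2).2
      omega
  · rw [sum_const, nsmul_eq_mul, card_product, card_powersetCard, card_powersetCard, card_range,
      card_univ]
    have c1 := Nat.choose_le_pow M R
    have c2 := Nat.choose_le_pow (Fintype.card V) (2 * m * R')
    gcongr

/-- the two group events together -/
theorem both_gen {Ω : Type} [Fintype Ω] {A B C D : Ω → Prop} {x y z : ℝ}
    (h1 : Pr (fun ω => A ω ∧ B ω) ≤ x) (h2 : Pr (fun ω => A ω ∧ C ω) ≤ y)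
    (h3 : Pr (fun ω => D ω ∧ ¬ B ω ∧ ¬ C ω) ≤ z) : Pr (fun ω => D ω ∧ A ω) ≤ x + y + z :=
  le_trans (Pr_mono fun ω hω => by tauto)
    ((Pr_or_le _ _).trans (add_le_add ((Pr_or_le _ _).trans (add_le_add h1 h2)) h3))

omit [DecidableEq V] in
theorem dd_le (β : V → Bool) (W : Finset V) : dd β W ≤ Fintype.card V :=
  (sum_le_card_nsmul _ _ 1 fun w _ => by split_ifs <;> simp).trans (by simpa using card_le_univ _)

theorem pr_flp (D : Finset (Sym2 V)) (A : (Sym2 V → Bool) → Prop) :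
    Pr (fun ω => A (flp D ω)) = Pr A :=
  Pr_comp_equiv (Function.Involutive.toPerm (flp D) fun ω => funext fun e => by
    unfold flp; split_ifs <;> simp) A

theorem sum_fib {I : Type} (S : Finset I) (A : (Sym2 V → Bool) → Prop)
    (g : (Sym2 V → Bool) → I) (hg : ∀ ω, g ω ∈ S) {x : ℝ}
    (h : ∀ i ∈ S, Pr (fun ω => A ω ∧ g ω = i) ≤ x) : Pr A ≤ S.card * x :=
  le_trans (Pr_mono fun ω hω => ⟨g ω, hg ω, hω, rfl⟩)
    ((Pr_exists_le S fun i ω => A ω ∧ g ω = i).trans ((sum_le_card_nsmul _ _ _ h).trans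
      (le_of_eq (nsmul_eq_mul _ _))))

theorem ct_mem (ω : Sym2 V → Bool) (u : V) : ct ω {u} ∈ range (Fintype.card V + 1) := by
  have := ct_le ω {u}
  rw [card_singleton] at this
  exact mem_range.2 (by omega)

end Pool.Agent.MP_f8284b_co.N72
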