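import Mathlib
import Pool.Agent.MP_f8284b_co.N72.Gen

set_option autoImplicit false

/-! Edit sets touching many vertices: the degree level. -/

namespace Pool.Agent.MP_f8284b_co.N72

open Finset Polynomial Pool.Agent.MP_f8284b_co.U85

variable {V : Type} [Fintype V] [DecidableEq V]

noncomputable def fl (D : Finset (Sym2 V)) (u v : V) (β : V → Bool) : ℚ[X] :=
  X ^ dd β (({v} : Finset V)ᶜ.erase u) - C (if s(u, v) ∈ D then -1 else 1) *
    X ^ dd (fun w => if s(v, w) ∈ D then !β w else β w) (({v} : Finset V)ᶜ.erase u)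

/-- the degree multisets agree -/
def E1 (D : Finset (Sym2 V)) (ω : Sym2 V → Bool) : Prop :=
  ∑ v, ((X : ℚ[X]) ^ ct ω {v} - X ^ ct (flp D ω) {v}) = 0

theorem E1_iff (D : Finset (Sym2 V)) (u : V) {η ζ : Sym2 V → Bool}
    (h : ∀ e, e ∉ st u ({u} : Finset V)ᶜ → η e = ζ e) (hE : E1 D η) :
    ((X : ℚ[X]) ^ ct η {u} - X ^ ct (flp D η) {u}) + ∑ v ∈ ({u} : Finset V)ᶜ,
      (X ^ ind η u v * X ^ dd (row ζ v) (({v} : Finset V)ᶜ.erase u) -
        X ^ ind (flp D η) u v * X ^ dd (row (flp D ζ) v) (({v} : Finset V)ᶜ.erase u)) = 0 := by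
  unfold E1 at hE
  rw [← sum_add_sum_compl {u}, sum_singleton] at hE
  rw [← hE]
  congr 1
  refine sum_congr rfl fun v hv => ?_
  have hvu : v ≠ u := by simpa using hv
  have e : ∀ w ∈ ({v} : Finset V)ᶜ.erase u, η s(v, w) = ζ s(v, w) := fun w hw => h _ fun hc => by
    rcases mem_st.1 hc with ⟨c, -⟩ | ⟨c, -⟩
    · exact hvu c
    · exact (mem_erase.1 hw).1 c
  rw [ct_split η hvu, ct_split _ hvu, pow_add, pow_add, dd_congr (β := row η v) (β' := row ζ v) e,
    dd_congr (β := row (flp D η) v) (β' := row (flp D ζ) v) fun w hw => by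
      simp only [row, flp, e w hw]]

theorem large_bits (D : Finset (Sym2 V)) (u : V) (R m : ℕ) :
    Pr (fun ω => E1 D ω ∧ Grp ({u} : Finset V)ᶜ (fun v => fl D u v (row ω v)) R m) ≤
      (Fintype.card V + 1) ^ 2 * mid m ^ R := by
  refine (sum_fib (range (Fintype.card V + 1) ×ˢ range (Fintype.card V + 1)) _
    (fun ω => (ct ω {u}, ct (flp D ω) {u})) (fun ω => mem_product.2 ⟨ct_mem _ u, ct_mem _ u⟩)
    (x := mid m ^ R) fun j _ => ?_).trans (le_of_eq (by simp [sq]))
  refine le_trans (Pr_mono fun ω hω => ?_) (bits_gen u ({u} : Finset V)ᶜ (by simp)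
    (fun ω v => fl D u v (row ω v))
    (fun ω => E1 D ω ∧ (ct ω {u}, ct (flp D ω) {u}) = j) R m fun ζ η η' a1 a2 a3 a4 => ?_)
  · exact ⟨⟨hω.1.1, hω.2⟩, hω.1.2⟩
  have b1 := E1_iff D u a3 a1.1
  have b2 := E1_iff D u a4 a2.1
  obtain ⟨c1, c2⟩ := Prod.mk.inj (a1.2.trans a2.2.symm)
  rw [c1, c2, ← b2, add_right_inj, eq_comm, ← sub_eq_zero, ← sum_sub_distrib] at b1
  rw [← b1, mul_sum]
  refine sum_congr rfl fun v _ => ?_
  have e : (fun w => if s(v, w) ∈ D then !row ζ v w else row ζ v w) = row (flp D ζ) v := rfl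
  rw [fl, e]
  unfold ind flp
  by_cases hD : s(u, v) ∈ D <;> cases η s(u, v) <;> cases η' s(u, v) <;> simp [hD] <;> ring

theorem subcube1 {E : Type} [Fintype E] [DecidableEq E] (e : E) (A : (E → Bool) → Prop)
    (h : ∀ η, ∃ ζ, ¬ A (pw {e} ζ η)) : Sm {e} A (1 / 2) := fun η => by
  obtain ⟨ζ, hζ⟩ := h η
  have h1 := Pr_add_not (fun ω : E → Bool => ∀ x ∈ ({e} : Finset E), ω x = ζ x)
  rw [cyl, card_singleton] at h1
  have h3 : Pr (fun ω => A (pw {e} ω η)) ≤
      Pr (fun ω : E → Bool => ¬ ∀ x ∈ ({e} : Finset E), ω x = ζ x) :=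
    Pr_mono fun ω hω hc => hζ (by
      have : pw {e} ζ η = pw {e} ω η := funext fun x => by
        by_cases b : x ∈ ({e} : Finset E)
        · rw [pw_in _ _ b, pw_in _ _ b, hc x b]
        · rw [pw_out _ _ b, pw_out _ _ b]
      rwa [this])
  linarith

theorem dd_sm {v : V} {Z S : Finset V} {k R : ℕ} (hZ : Z.card = 2 * k)
    (hR : 64 * R ^ 2 ≤ 2 * k + 1) (hZs : Z ⊆ S) (hvZ : v ∉ Z) (T : Finset ℕ) (hT : T.card ≤ R) :
    Sm (st v Z) (fun ω => dd (row ω v) S ∈ T) (1 / 8) := fun η => by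
  refine le_trans (Pr_mono fun ω hω => ?_) (spread (st v Z) k R (by rw [card_st, hZ]) hR T hT
    (dd (row η v) (S \ Z)))
  have e0 : ∀ w, w ∉ Z → row (pw (st v Z) ω η) v w = row η v w := fun w hw =>
    pw_out _ _ fun hc => by
      rcases mem_st.1 hc with ⟨-, c⟩ | ⟨-, c⟩
      · exact hw c
      · exact hvZ c
  have e2 : dd (row (pw (st v Z) ω η) v) Z = cnt ω (st v Z) := by
    have : cnt ω (st v Z) = dd (row ω v) Z := by
      rw [cnt, card_filter, st, sum_image (st_inj v Z)]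
      rfl
    rw [this]
    exact dd_congr fun w hw => pw_in _ _ (mem_st.2 (Or.inl ⟨rfl, hw⟩))
  have e3 : dd (row (pw (st v Z) ω η) v) S = cnt ω (st v Z) + dd (row η v) (S \ Z) := by
    rw [← e2, ← dd_congr fun w hw => e0 w (mem_sdiff.1 hw).2, add_comm]
    exact (sum_sdiff hZs).symm
  rwa [← e3]

theorem Sm.flp {F : Finset (Sym2 V)} {A : (Sym2 V → Bool) → Prop} {p : ℝ} (h : Sm F A p)
    (D : Finset (Sym2 V)) : Sm F (fun ω => A (flp D ω)) p := fun η => by
  refine le_trans (le_of_eq ?_) (h (N72.flp D η))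
  rw [← pr_flp D fun ω => A (pw F ω (N72.flp D η))]
  refine Pr_congr fun ω => ?_
  have : N72.flp D (pw F ω η) = pw F (N72.flp D ω) (N72.flp D η) := funext fun e => by
    by_cases a : e ∈ D <;> by_cases b : e ∈ F <;> simp [N72.flp, pw, a, b]
  simp only [this]

theorem large_sm (D : Finset (Sym2 V)) {u v g : V} {Z : Finset V} {k R : ℕ} (hZ : Z.card = 2 * k)
    (hR : 64 * R ^ 2 ≤ 2 * k + 1) (huZ : u ∉ Z) (hvZ : v ∉ Z) (hg : g ≠ v) (hD : s(v, g) ∈ D)
    (hu : g = u → s(u, v) ∈ D) (T : Finset ℕ) (hT : T.card ≤ R) :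
    Sm (st v (insert g Z)) (fun ω => fl D u v (row ω v) = 0 ∨ (fl D u v (row ω v)).natDegree ∈ T)
      (7 / 8) := by
  set S := ({v} : Finset V)ᶜ.erase u with hS
  have hZs : Z ⊆ S := fun w hw => mem_erase.2 ⟨fun e => huZ (e ▸ hw),
    mem_compl.2 fun e => hvZ (mem_singleton.1 e ▸ hw)⟩
  have h1 : Sm {s(v, g)} (fun ω => fl D u v (row ω v) = 0) (1 / 2) := by
    refine subcube1 _ _ fun η => ?_
    by_cases hc : s(u, v) ∈ D
    · refine ⟨η, fun h => ?_⟩
      have := congrArg (eval 1) h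
      simp [fl, hc] at this
    have hgS : g ∈ S := mem_erase.2 ⟨fun e => hc (hu e), by simpa using hg⟩
    have key : ∀ b, fl D u v (row (pw {s(v, g)} (fun _ => b) η) v) = 0 →
        (if b = true then 1 else 0) + dd (row η v) (S.erase g) = (if (!b) = true then 1 else 0) +
          dd (fun w => if s(v, w) ∈ D then !row η v w else row η v w) (S.erase g) := by
      intro b h
      have e1 : row (pw {s(v, g)} (fun _ => b) η) v g = b := pw_in _ _ (mem_singleton_self _)
      have e2 : ∀ w ∈ S.erase g, row (pw {s(v, g)} (fun _ => b) η) v w = row η v w := fun w hw =>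
        pw_out _ _ fun hm => (mem_erase.1 hw).1 (Sym2.congr_right.1 (mem_singleton.1 hm))
      rw [fl, if_neg hc, C_1, one_mul, sub_eq_zero] at h
      have h2 := congrArg natDegree h
      have e3 : ∀ β : V → Bool, dd β S = (if β g = true then 1 else 0) + dd β (S.erase g) :=
        fun β => (add_sum_erase _ (fun w => if β w = true then 1 else 0) hgS).symm
      simp only [natDegree_X_pow] at h2
      rw [← hS, e3, e3 (fun w => if s(v, w) ∈ D then _ else _), dd_congr e2,
        dd_congr (β := fun w => if s(v, w) ∈ D then _ else _)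
          (β' := fun w => if s(v, w) ∈ D then !row η v w else row η v w)
          fun w hw => by rw [e2 w hw]] at h2
      simpa only [if_pos hD, e1] using h2
    by_contra hn
    push Not at hn
    have k1 := key true (hn _)
    have k2 := key false (hn _)
    simp at k1 k2
    omega
  have h2 := dd_sm hZ hR hZs hvZ T hT
  have hsub : st v Z ⊆ st v (insert g Z) := image_subset_image (subset_insert _ _)
  have h3 := (h1.mono (singleton_subset_iff.2 (mem_st.2 (Or.inl ⟨rfl, mem_insert_self g Z⟩)))).or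
    ((h2.mono hsub).or ((h2.flp D).mono hsub) fun _ h => h)
    (B := fun ω => fl D u v (row ω v) = 0 ∨ (fl D u v (row ω v)).natDegree ∈ T) fun ω h => by
      by_cases h0 : fl D u v (row ω v) = 0
      · exact Or.inl h0
      refine Or.inr ?_
      have hT := h.resolve_left h0
      have hl := leadingCoeff_ne_zero.2 h0
      rw [leadingCoeff] at hl
      generalize (fl D u v (row ω v)).natDegree = N at hT hl
      by_contra hc
      rw [not_or] at hc
      refine hl ?_
      have n1 : N ≠ dd (row ω v) S := fun e => hc.1 (e ▸ hT)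
      have n2 : N ≠ dd (fun w => if s(v, w) ∈ D then !row ω v w else row ω v w) S := fun e =>
        hc.2 (by rw [e] at hT; exact hT)
      rw [fl, coeff_sub, coeff_C_mul, coeff_X_pow, coeff_X_pow, if_neg n1, if_neg n2]
      simp
  exact fun η => (h3 η).trans (by norm_num)

theorem sep (S : Finset V) (g : V → V) (hg : ∀ v ∈ S, g v ≠ v) :
    ∃ P ⊆ S, S.card ≤ 4 * P.card ∧ ∀ v ∈ P, g v ∉ P := by
  have hc := PB.card_pos' (E := V)
  have h1 : ∀ v ∈ S, ∑ β : V → Bool, (if β v = true ∧ β (g v) = false then (1 : ℝ) else 0) =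
      Fintype.card (V → Bool) / 4 := fun v hv => by
    have := cyl ({v, g v} : Finset V) fun x => decide (x = v)
    rw [card_pair (hg v hv).symm, Pr_congr (C := fun β => β v = true ∧ β (g v) = false)
      (fun β => by simp [hg v hv]), Pr_eq_sum, div_eq_iff hc.ne'] at this
    rw [this]
    ring
  have h2 : ∑ _β : V → Bool, (S.card : ℝ) / 4 ≤
      ∑ β : V → Bool, ∑ v ∈ S, if β v = true ∧ β (g v) = false then (1 : ℝ) else 0 := by
    rw [sum_comm, sum_congr rfl h1]
    simp only [sum_const, card_univ, nsmul_eq_mul]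
    linarith
  obtain ⟨β, -, h⟩ := exists_le_of_sum_le univ_nonempty h2
  rw [sum_boole] at h
  refine ⟨S.filter fun v => β v = true ∧ β (g v) = false, filter_subset _ _, ?_, fun v hv hc => ?_⟩
  · have : (S.card : ℝ) ≤ 4 * (S.filter fun v => β v = true ∧ β (g v) = false).card := by linarith
    exact_mod_cast this
  · have a := (mem_filter.1 hv).2.2
    rw [(mem_filter.1 hc).2.1] at a
    exact Bool.noConfusion a

theorem large_many (D : Finset (Sym2 V)) (U : Finset V) (hU : ∀ v ∈ U, ∃ w, w ≠ v ∧ s(v, w) ∈ D)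
    (u : V) {k R m R' p : ℕ} (hR : 64 * R ^ 2 ≤ 2 * k + 1) (hRn : R ≤ Fintype.card V + 1)
    (hp : 4 * (p + 2 * m * R') + 1 ≤ U.card) (hk : 2 * k + (p + 2 * m * R') + 1 ≤ Fintype.card V) :
    Pr (fun ω => ¬ Grp ({u} : Finset V)ᶜ (fun v => fl D u v (row ω v)) R m ∧
        ¬ Grp ({u} : Finset V)ᶜ (fun v => fl D u v (row ω v)) R' 1) ≤
      ((Fintype.card V + 1) ^ R * Fintype.card V ^ (2 * m * R') : ℕ) * (7 / 8) ^ p := by
  have : ∀ v, ∃ w, v ∈ U → w ≠ v ∧ s(v, w) ∈ D := fun v => by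
    by_cases h : v ∈ U
    · exact (hU v h).imp fun _ a _ => a
    · exact ⟨v, fun a => absurd a h⟩
  choose g hg using this
  obtain ⟨P', p1, p2, p3⟩ := sep (U.erase u) g fun v hv => (hg v (mem_of_mem_erase hv)).1
  have c1 := pred_card_le_card_erase (s := U) (a := u)
  obtain ⟨P, q1, q2⟩ := exists_subset_card_eq (s := P') (n := p + 2 * m * R') (by omega)
  have c2 := card_insert_le u P
  have c3 := card_add_card_compl (insert u P)
  obtain ⟨Z, z1, z2⟩ := exists_subset_card_eq (s := (insert u P)ᶜ) (n := 2 * k) (by omega)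
  have hZ : ∀ v ∈ P, v ∉ Z := fun v hv h => mem_compl.1 (z1 h) (mem_insert_of_mem hv)
  refine many_gen _ P (fun v hv => by simpa using (mem_erase.1 (p1 (q1 hv))).1) (fl D u)
    (fun v => st v (insert (g v) Z)) (fun v β => ?_) hRn (by omega) q2.ge (fun v hv T hT => ?_)
    fun i hi j hj hij w hc => ?_
  · refine Nat.lt_succ_of_le ((natDegree_sub_le _ _).trans (max_le ?_
      ((natDegree_C_mul_le _ _).trans ?_))) <;> rw [natDegree_X_pow] <;> exact dd_le _ _
  · have a := hg v (mem_of_mem_erase (p1 (q1 hv)))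
    exact large_sm D z2 hR (fun h => mem_compl.1 (z1 h) (mem_insert_self _ _)) (hZ v hv) a.1 a.2
      (fun e => by rw [Sym2.eq_swap, ← e]; exact a.2) T hT
  · rcases mem_st.1 hc with ⟨c, -⟩ | ⟨-, c⟩
    · exact hij c.symm
    · rcases mem_insert.1 c with c | c
      · exact p3 i (q1 hi) (c ▸ q1 hj)
      · exact hZ j hj c

end Pool.Agent.MP_f8284b_co.N72
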