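import Mathlib

set_option autoImplicit false

/-! The numerical estimate. -/

namespace Pool.Agent.MP_f8284b_co.N72

open Real

theorem num {y : ℝ} (hy : 10 ^ 4 ≤ y) {n r R j : ℕ} (hn : (n : ℝ) = y ^ 8)
    (hr : (r : ℝ) ≤ y ^ 4 / 1000) (hR1 : y ^ 4 / 16 - 1 ≤ R) (hR2 : (R : ℝ) ≤ y ^ 4 / 16)
    (hK : ((2 * (2 * j) * (j * R) : ℕ) : ℝ) ≤ y ^ 6) :
    2 * ((1 + exp (-(n : ℝ) / 400)) ^ n - 1) + (((r + 1) * (n * n) ^ r : ℕ) : ℝ) *
      (2 * (2 * ((n + 1) * exp (-(log y / 2)) ^ R) +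
        ((((n + 1) ^ (2 * r) * 2 ^ (2 * r * (2 * r))) ^ 2 *
          ((3 * n + 5) ^ R * n ^ (2 * (2 * j) * (j * R))) : ℕ) : ℝ) * (7 / 8) ^ (n / 3))) ≤
      exp (-(1 / 1000 * y ^ 4 * (8 * log y))) := by
  have hy0 : 0 < y := by linarith
  generalize 2 * (2 * j) * (j * R) = K at *
  have hL1 : 1 ≤ log y := by
    rw [le_log_iff_exp_le hy0]
    linarith [exp_one_lt_d9]
  have hLy : log y ≤ y := by linarith [log_le_sub_one_of_pos hy0]
  have e0 : (n : ℝ) = exp (8 * log y) := by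
    rw [hn, show 8 * log y = (8 : ℕ) * log y by norm_num, exp_nat_mul, exp_log hy0]
  set L := log y
  have y2 : y ≤ y ^ 3 := le_self_pow₀ (by linarith) (by norm_num)
  have y4 : y ≤ y ^ 4 := le_self_pow₀ (by linarith) (by norm_num)
  have y8 : y ≤ y ^ 8 := le_self_pow₀ (by linarith) (by norm_num)
  have e2 : (2 : ℝ) ≤ exp 1 := by linarith [add_one_le_exp (1 : ℝ)]
  have e2L : (2 : ℝ) ≤ exp L := e2.trans (exp_le_exp.2 hL1)
  have e1 : (n : ℝ) + 1 ≤ exp (9 * L) := by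
    rw [show 9 * L = 8 * L + L by ring, exp_add, ← e0]
    nlinarith
  have e3 : 3 * (n : ℝ) + 5 ≤ exp (10 * L) := by
    rw [show 10 * L = 8 * L + L + L by ring, exp_add, exp_add, ← e0, mul_assoc]
    nlinarith [mul_le_mul e2L e2L (by norm_num) (exp_pos _).le]
  have e4 : (r : ℝ) + 1 ≤ exp r := add_one_le_exp _
  have e5 : (7 / 8 : ℝ) ≤ exp (-(1 / 8)) := by
    linarith [add_one_le_exp (-(1 / 8) : ℝ)]
  have hL0 : 0 ≤ L := by linarith
  have hr0 : (0 : ℝ) ≤ r := Nat.cast_nonneg _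
  have f1 : r * L ≤ y ^ 4 * L / 1000 := by nlinarith
  have f2 : y ^ 4 * L / 16 - L ≤ R * L := by nlinarith
  have f2' : R * L ≤ y ^ 4 * L / 16 := by nlinarith
  have f3 : 10 ^ 4 * L ≤ y ^ 4 * L := by nlinarith
  have f4 : 10 ^ 4 * (y ^ 4 * L) ≤ y ^ 8 := by
    have : y ^ 8 = y ^ 3 * (y ^ 4 * y) := by ring
    rw [this]
    exact mul_le_mul (by linarith) (by gcongr) (by positivity) (by positivity)
  have f5 : (r : ℝ) * r ≤ y ^ 8 / 10 ^ 6 := by
    have : y ^ 8 / 10 ^ 6 = y ^ 4 / 1000 * (y ^ 4 / 1000) := by ring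
    rw [this]
    gcongr
  have f6 : 10 ^ 4 * (K * L) ≤ y ^ 8 := by
    have : y ^ 8 = y * (y ^ 6 * y) := by ring
    rw [this]
    gcongr
  have f7 : (r : ℝ) ≤ r * L := by nlinarith
  have f8 : y ^ 8 / 3 - 1 ≤ (n / 3 : ℕ) := by
    have : n ≤ 3 * (n / 3) + 3 := by omega
    have : (n : ℝ) ≤ 3 * (n / 3 : ℕ) + 3 := by exact_mod_cast this
    linarith
  set w := y ^ 4 * L with hw
  have t0 : (((r + 1) * (n * n) ^ r : ℕ) : ℝ) ≤ exp (r + r * (16 * L)) := by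
    push_cast
    rw [exp_add, exp_nat_mul, show 16 * L = 8 * L + 8 * L by ring, exp_add, ← e0]
    gcongr
  have t1 : 2 * ((1 + exp (-(n : ℝ) / 400)) ^ n - 1) ≤ exp (-(12 / 1000 * w)) := by
    have a1 : (1 + exp (-(n : ℝ) / 400)) ^ n ≤ exp (n * exp (-(n : ℝ) / 400)) := by
      rw [exp_nat_mul]
      gcongr
      linarith [add_one_le_exp (exp (-(n : ℝ) / 400))]
    have a2 : n * exp (-(n : ℝ) / 400) = exp (8 * L + -(n : ℝ) / 400) := by rw [exp_add, ← e0]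
    have a3 : exp (8 * L + -(n : ℝ) / 400) ≤ 1 := exp_le_one_iff.2 (by rw [hn]; linarith)
    have a4 := abs_exp_sub_one_le (x := exp (8 * L + -(n : ℝ) / 400))
      (by rwa [abs_of_pos (exp_pos _)])
    rw [abs_of_pos (exp_pos _)] at a4
    have a5 := le_abs_self (exp (exp (8 * L + -(n : ℝ) / 400)) - 1)
    have a6 : exp 1 * exp 1 * exp (8 * L + -(n : ℝ) / 400) ≤ exp (-(12 / 1000 * w)) := by
      rw [← exp_add, ← exp_add, hn]
      exact exp_le_exp.2 (by linarith)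
    rw [a2] at a1
    nlinarith [mul_le_mul_of_nonneg_right (mul_le_mul e2 e2 (by norm_num) (exp_pos _).le)
      (exp_pos (8 * L + -(n : ℝ) / 400)).le]
  have t2 : exp (r + r * (16 * L)) * (2 * (2 * ((n + 1) * exp (-(L / 2)) ^ R))) ≤
      exp (-(12 / 1000 * w)) := by
    calc _ ≤ exp (r + r * (16 * L)) * (exp 1 * (exp 1 * (exp (9 * L) * exp (-(L / 2)) ^ R))) := by
          gcongr
      _ ≤ _ := by
          simp only [← exp_nat_mul, ← exp_add]
          exact exp_le_exp.2 (by linarith)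
  have t3 : exp (r + r * (16 * L)) * (2 * (((((n + 1) ^ (2 * r) * 2 ^ (2 * r * (2 * r))) ^ 2 *
      ((3 * n + 5) ^ R * n ^ K) : ℕ) : ℝ) * (7 / 8) ^ (n / 3))) ≤ exp (-(12 / 1000 * w)) := by
    push_cast
    calc _ ≤ exp (r + r * (16 * L)) * (exp 1 * (((exp (9 * L) ^ (2 * r) *
          exp 1 ^ (2 * r * (2 * r))) ^ 2 * (exp (10 * L) ^ R * exp (8 * L) ^ K)) *
            exp (-(1 / 8)) ^ (n / 3))) := by
          gcongr
          exact e0.le
      _ ≤ _ := by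
          simp only [← exp_nat_mul, ← exp_add]
          push_cast
          exact exp_le_exp.2 (by linarith)
  have t4 : 3 * exp (-(12 / 1000 * w)) ≤ exp (-(1 / 1000 * y ^ 4 * (8 * L))) := by
    rw [show -(1 / 1000 * y ^ 4 * (8 * L)) = 4 / 1000 * w + -(12 / 1000 * w) by rw [hw]; ring,
      exp_add]
    gcongr
    linarith [add_one_le_exp (4 / 1000 * w)]
  refine le_trans (add_le_add t1 (mul_le_mul_of_nonneg_right t0 (by positivity))) ?_
  rw [mul_add, mul_add]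
  linarith

end Pool.Agent.MP_f8284b_co.N72
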