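import Mathlib
import Pool.Agent.MP_f8284b_co.U85.TR
import Pool.Agent.MP_f8284b_co.N72.Det
import Pool.Agent.MP_f8284b_co.N72.Num

set_option autoImplicit false

/-! Union bound over the edit sets and assembly. -/

namespace Pool.Agent.MP_f8284b_co.N72

open Finset Pool.Agent.MP_f8284b_co.U85

variable {V : Type} [Fintype V] [DecidableEq V]

theorem bad_prob (D : Finset (Sym2 V)) {a : ℕ} (ha : a ≤ 2) {r R j : ℕ} {y : ℝ} (hy : 0 < y)
    (hyj : y ≤ 2 * j + 1) (hD : D.card ≤ r) (hR : 256 * R ^ 2 ≤ Fintype.card V)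
    (hn : 6 * (2 * (2 * j) * (j * R) + 2 * r + 1) ≤ Fintype.card V) :
    Pr (Bad D a) ≤ 2 * ((Fintype.card V + 1) * Real.exp (-(Real.log y / 2)) ^ R) +
      ((((Fintype.card V + 1) ^ (2 * r) * 2 ^ (2 * r * (2 * r))) ^ 2 *
        ((3 * Fintype.card V + 5) ^ R * Fintype.card V ^ (2 * (2 * j) * (j * R))) : ℕ) : ℝ) *
          (7 / 8) ^ (Fintype.card V / 3) := by
  have hU : (tv D).card ≤ 2 * r := (card_tv D).trans (by omega)
  obtain ⟨u, -, hu⟩ := exists_mem_notMem_of_card_lt_card (s := tv D) (t := univ)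
    (by rw [card_univ]; omega)
  have hc : (insert u (tv D))ᶜ.card + ((tv D).card + 1) = Fintype.card V := by
    rw [← card_insert_of_notMem hu, add_comm, card_add_card_compl]
  obtain ⟨Z, hZ, hZc⟩ := exists_subset_card_eq (s := (insert u (tv D))ᶜ)
    (n := 2 * (Fintype.card V / 4)) (by omega)
  have h1 := bits_step D (tv D) a hu R (2 * j)
  have h2 := bits_step D (tv D) a hu (j * R) 1
  have h3 := many_step D (tv D) Z ha (R := R) (m := 2 * j) (R' := j * R) (p := Fintype.card V / 3)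
    hZc (by omega) hZ (by nlinarith) (by omega) (by omega)
  obtain ⟨m1, m2⟩ := mid_le j hy hyj
  have h4 : mid (2 * j) ^ R ≤ Real.exp (-(Real.log y / 2)) ^ R :=
    pow_le_pow_left₀ (mid_nonneg _) m1 _
  have h5 : mid 1 ^ (j * R) ≤ Real.exp (-(Real.log y / 2)) ^ R := by
    rw [pow_mul]
    exact pow_le_pow_left₀ (pow_nonneg (mid_nonneg _) _) m2 _
  have hp : (0 : ℝ) ≤ Fintype.card V + 1 := by positivity
  refine le_trans (Pr_mono fun ω hω => ?_) ((Pr_or_le _ _).trans (add_le_add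
    ((Pr_or_le _ _).trans ((add_le_add (h1.trans (mul_le_mul_of_nonneg_left h4 hp))
      (h2.trans (mul_le_mul_of_nonneg_left h5 hp))).trans (le_of_eq (two_mul _).symm)))
    (h3.trans ?_)))
  · unfold Bad at hω
    tauto
  · gcongr <;> omega

theorem card_edits (r : ℕ) [Nonempty V] :
    (univ.filter fun D : Finset (Sym2 V) => D.card ≤ r).card ≤
      (r + 1) * (Fintype.card V * Fintype.card V) ^ r := by
  have h1 : Fintype.card (Sym2 V) ≤ Fintype.card V * Fintype.card V := by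
    rw [← Fintype.card_prod]
    exact Fintype.card_le_of_surjective (fun p : V × V => s(p.1, p.2)) fun e =>
      Sym2.ind (fun u v => ⟨(u, v), rfl⟩) e
  have h2 : 1 ≤ Fintype.card V * Fintype.card V := Nat.mul_pos Fintype.card_pos Fintype.card_pos
  refine (card_le_card (t := (range (r + 1)).biUnion fun i => powersetCard i univ)
    fun D hD => ?_).trans (card_biUnion_le.trans ?_)
  · exact mem_biUnion.2 ⟨D.card, mem_range.2 (Nat.lt_succ_of_le (mem_filter.1 hD).2), by simp⟩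
  · refine (sum_le_card_nsmul _ _ ((Fintype.card V * Fintype.card V) ^ r) fun i hi => ?_).trans
      (by simp)
    rw [card_powersetCard, card_univ]
    exact (Nat.choose_le_pow _ _).trans ((Nat.pow_le_pow_left h1 _).trans
      (Nat.pow_le_pow_right h2 (Nat.lt_succ_iff.1 (mem_range.1 hi))))

omit [DecidableEq V] in
theorem gcut_iso {H H' : SimpleGraph V} (e : H ≃g H') (φ : ℕ → ℚ) :
    ∑ S : Finset V, φ (gcut H S) = ∑ S : Finset V, φ (gcut H' S) := by
  refine Fintype.sum_equiv e.toEquiv.finsetCongr _ _ fun S => congrArg φ ?_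
  refine card_equiv (e.toEquiv.prodCongr e.toEquiv) fun p => ?_
  have : ∀ v, e.toEquiv.symm (e v) = v := e.toEquiv.symm_apply_apply
  simp [e.map_rel_iff, this]

open Classical in
theorem cut_of_tutte {n : ℕ} {G H : SimpleGraph (Fin n)}
    (h : tutte (Subtype.val : H.edgeSet → Sym2 (Fin n)) =
      tutte (Subtype.val : G.edgeSet → Sym2 (Fin n))) (φ : ℕ → ℚ) :
    ∑ S : Finset (Fin n), φ (gcut G S) = ∑ S : Finset (Fin n), φ (gcut H S) := by
  have h1 := gcut_dist h ⟨Subtype.val_injective, fun a => H.not_isDiag_of_mem_edgeSet a.2⟩ φ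
  have h2 : ∀ K : SimpleGraph (Fin n), gr (Subtype.val : K.edgeSet → Sym2 (Fin n)) = K := fun K => by
    rw [gr, Subtype.range_coe, SimpleGraph.fromEdgeSet_edgeSet]
  rw [h2, h2] at h1
  exact (mul_left_cancel₀ (by positivity) h1).symm

open Classical in
theorem main_near {n : ℕ} (hn : 10 ^ 32 ≤ n) :
    1 - Real.exp (-(1 / 1000 * √n * Real.log n)) ≤
      (Nat.card {G : SimpleGraph (Fin n) // ∀ H H' : SimpleGraph (Fin n),
        tutte (Subtype.val : H.edgeSet → Sym2 (Fin n)) =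
          tutte (Subtype.val : G.edgeSet → Sym2 (Fin n)) → Nonempty (H ≃g H') →
        ((symmDiff G.edgeSet H'.edgeSet).ncard : ℝ) ≤ 1 / 1000 * √n → H' = G} : ℝ) /
      (Nat.card (SimpleGraph (Fin n)) : ℝ) := by
  obtain ⟨y, hy0, hy8⟩ : ∃ y : ℝ, 0 ≤ y ∧ (n : ℝ) = y ^ 8 :=
    ⟨(n : ℝ) ^ ((8 : ℕ) : ℝ)⁻¹, by positivity,
      (Real.rpow_inv_natCast_pow (Nat.cast_nonneg n) (by norm_num)).symm⟩
  have hy : 10 ^ 4 ≤ y := by
    refine le_of_pow_le_pow_left₀ (n := 8) (by norm_num) hy0 ?_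
    rw [← hy8, ← pow_mul]
    exact_mod_cast hn
  have hs : √(n : ℝ) = y ^ 4 := by
    rw [hy8, show y ^ 8 = (y ^ 4) ^ 2 by ring, Real.sqrt_sq (by positivity)]
  have hl : Real.log n = 8 * Real.log y := by rw [hy8, Real.log_pow]; norm_num
  rw [hs, hl]
  obtain ⟨r, hr⟩ : ∃ r, r = ⌊y ^ 4 / 1000⌋₊ := ⟨_, rfl⟩
  obtain ⟨R, hR⟩ : ∃ R, R = ⌊y ^ 4 / 16⌋₊ := ⟨_, rfl⟩
  obtain ⟨j, hj⟩ : ∃ j, j = ⌊y⌋₊ := ⟨_, rfl⟩
  have r1 : (r : ℝ) ≤ y ^ 4 / 1000 := hr ▸ Nat.floor_le (by positivity)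
  have R1 : y ^ 4 / 16 - 1 ≤ R := hR ▸ (Nat.sub_one_lt_floor _).le
  have R2 : (R : ℝ) ≤ y ^ 4 / 16 := hR ▸ Nat.floor_le (by positivity)
  have j1 : (j : ℝ) ≤ y := hj ▸ Nat.floor_le hy0
  have j2 : y ≤ 2 * j + 1 := by
    have := hj ▸ Nat.lt_floor_add_one y
    linarith [Nat.cast_nonneg (α := ℝ) j]
  have K1 : ((2 * (2 * j) * (j * R) : ℕ) : ℝ) ≤ y ^ 6 := by
    push_cast
    calc _ ≤ 2 * (2 * y) * (y * (y ^ 4 / 16)) := by gcongr
      _ = y ^ 6 / 4 := by ring
      _ ≤ _ := by linarith [pow_nonneg hy0 6]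
  have y1 : 1 ≤ y := by linarith
  have y2 : 100 * y ^ 6 ≤ y ^ 8 := by
    rw [show y ^ 8 = y ^ 2 * y ^ 6 by ring]
    gcongr
    nlinarith
  have y3 : y ^ 4 ≤ y ^ 6 := pow_le_pow_right₀ y1 (by norm_num)
  have y4 : 1 ≤ y ^ 4 := one_le_pow₀ y1
  have c1 : 256 * R ^ 2 ≤ n := by
    have : 256 * (R : ℝ) ^ 2 ≤ n := by
      rw [hy8]
      calc _ ≤ 256 * (y ^ 4 / 16) ^ 2 := by gcongr
        _ = _ := by ring
    exact_mod_cast this
  have c2 : 6 * (2 * (2 * j) * (j * R) + 2 * r + 1) ≤ n ∧ 25 * r ≤ n := by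
    generalize 2 * (2 * j) * (j * R) = K at *
    have a1 : 6 * ((K : ℝ) + 2 * r + 1) ≤ n := by linarith
    have a2 : 25 * (r : ℝ) ≤ n := by linarith
    exact ⟨by exact_mod_cast a1, by exact_mod_cast a2⟩
  have c3 : 200 ≤ n := le_trans (by norm_num) hn
  have : Nonempty (Fin n) := ⟨⟨0, by omega⟩⟩
  refine le_trans (sub_le_sub_left ?_ 1) (rowTR n _ (fun ω => Nice 0 ω ∧
    ¬ ∃ D ∈ univ.filter fun D : Finset (Sym2 (Fin n)) => D.card ≤ r,
      ∃ a ∈ ({1, 2} : Finset ℕ), Bad D a ω) ?_)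
  · refine le_trans ?_ (num hy hy8 r1 R1 R2 K1)
    refine le_trans (Pr_mono fun ω hω => (not_and_or.1 hω).imp id not_not.1)
      ((Pr_or_le _ _).trans (add_le_add (by simpa using nice_prob (V := Fin n)) ?_))
    refine (Pr_exists_le _ _).trans ((sum_le_card_nsmul _ _ _ fun D hD =>
      (Pr_exists_le _ _).trans (sum_le_card_nsmul _ _ _ fun a ha => bad_prob D
        (by simp only [mem_insert, mem_singleton] at ha; omega) (by linarith) j2
        (mem_filter.1 hD).2 (by simpa using c1) (by simpa using c2.1))).trans ?_)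
    have := card_edits (V := Fin n) r
    rw [card_pair (by norm_num), nsmul_eq_mul, nsmul_eq_mul]
    simp only [Fintype.card_fin] at this ⊢
    gcongr
    norm_num
  · rintro ω G hG ⟨h1, h2⟩ H H' hT ⟨e⟩ hd
    by_contra hne
    have hD : (symmDiff G.edgeSet H'.edgeSet).toFinset.card ≤ r := by
      rw [← Set.ncard_eq_toFinset_card', hr]
      exact Nat.le_floor (by linarith)
    exact h2 ⟨_, mem_filter.2 ⟨mem_univ _, hD⟩, det _ hG (fun e => Set.mem_toFinset) hne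
      (by simpa using c3) (by simp only [Fintype.card_fin]; omega) h1
      fun φ => (cut_of_tutte hT φ).trans (gcut_iso e φ)⟩

end Pool.Agent.MP_f8284b_co.N72
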