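import Mathlib

set_option autoImplicit false

/-! The numerical estimates for the uniform bound. -/

namespace Pool.Agent.MP_f8284b_co.N72

open Real

theorem log_facts {y : ℝ} (hy : 10 ^ 7 ≤ y) : 1 ≤ log y ∧ 1000 * log y ≤ y := by
  have hy0 : 0 < y := by linarith
  refine ⟨by rw [le_log_iff_exp_le hy0]; linarith [exp_one_lt_d9], ?_⟩
  have h1 := log_le_sub_one_of_pos (show 0 < y / 2000 by positivity)
  have h2 := log_le_sub_one_of_pos (show (0 : ℝ) < 2000 by norm_num)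
  rw [log_div hy0.ne' (by norm_num)] at h1
  linarith

theorem num2 {y : ℝ} (hy : 10 ^ 7 ≤ y) {n l R K p : ℕ} (hn : (n : ℝ) = y ^ 8)
    (hl : (l : ℝ) ≤ y ^ 7) (hR1 : y ^ 4 / 16 - 1 ≤ R) (hR2 : (R : ℝ) ≤ y ^ 4 / 16)
    (hK : (K : ℝ) ≤ y ^ 6) (hp : y ^ 7 / 5 - 1 ≤ p) :
    2 * (2 * ((1 + exp (-(n : ℝ) / 400)) ^ n - 1)) + (4 * ((n + 1) ^ 2 * exp (-(log y / 2)) ^ R) +
      2 * ((((n + 1) ^ l) ^ 2 : ℕ) * ((((3 * n + 5) ^ R * n ^ K : ℕ) : ℝ) * (7 / 8) ^ (n / 3))) +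
      (((3 * n + 5) ^ R * n ^ K : ℕ) : ℝ) * (7 / 8) ^ p) ≤
      exp (-(24 / 1000 * (y ^ 4 * log y))) := by
  have hy0 : 0 < y := by linarith
  obtain ⟨hL1, hLy⟩ := log_facts hy
  have e0 : (n : ℝ) = exp (8 * log y) := by
    rw [hn, show 8 * log y = (8 : ℕ) * log y by norm_num, exp_nat_mul, exp_log hy0]
  set L := log y
  have y1 : 1 ≤ y := by linarith
  have y4 : y ≤ y ^ 4 := le_self_pow₀ y1 (by norm_num)
  have y7 : y ≤ y ^ 7 := le_self_pow₀ y1 (by norm_num)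
  have y8 : y ^ 7 ≤ y ^ 8 := pow_le_pow_right₀ y1 (by norm_num)
  have e2 : (2 : ℝ) ≤ exp 1 := by linarith [add_one_le_exp (1 : ℝ)]
  have e4 : (4 : ℝ) ≤ exp 3 := by linarith [add_one_le_exp (3 : ℝ)]
  have e2L : (2 : ℝ) ≤ exp L := e2.trans (exp_le_exp.2 hL1)
  have e1 : (n : ℝ) + 1 ≤ exp (9 * L) := by
    rw [show 9 * L = 8 * L + L by ring, exp_add, ← e0]
    nlinarith
  have e3 : 3 * (n : ℝ) + 5 ≤ exp (10 * L) := by
    rw [show 10 * L = 8 * L + L + L by ring, exp_add, exp_add, ← e0, mul_assoc]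
    nlinarith [mul_le_mul e2L e2L (by norm_num) (exp_pos _).le]
  have e5 : (7 / 8 : ℝ) ≤ exp (-(1 / 8)) := by
    linarith [add_one_le_exp (-(1 / 8) : ℝ)]
  have hL0 : 0 ≤ L := by linarith
  have f2 : y ^ 4 * L / 16 - L ≤ R * L := by
    linarith [mul_le_mul_of_nonneg_right hR1 hL0]
  have f2' : R * L ≤ y ^ 4 * L / 16 := by
    linarith [mul_le_mul_of_nonneg_right hR2 hL0]
  have f3 : 10 ^ 7 * L ≤ y ^ 4 * L := mul_le_mul_of_nonneg_right (by linarith) hL0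
  have g : ∀ (x : ℝ) (k : ℕ), x ≤ y ^ k → 1000 * (x * L) ≤ y ^ (k + 1) := fun x k h => by
    rw [pow_succ, mul_left_comm]
    exact (mul_le_mul_of_nonneg_right h (by positivity)).trans
      (mul_le_mul_of_nonneg_left hLy (by positivity))
  have f4 : 1000 * (y ^ 4 * L) ≤ y ^ 7 :=
    (g _ 4 le_rfl).trans (pow_le_pow_right₀ y1 (by norm_num))
  have f5 : 1000 * (l * L) ≤ y ^ 8 := g _ 7 hl
  have f6 : 1000 * (K * L) ≤ y ^ 7 := g _ 6 hK
  have f8 : y ^ 8 / 3 - 1 ≤ (n / 3 : ℕ) := by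
    have : n ≤ 3 * (n / 3) + 3 := by omega
    have : (n : ℝ) ≤ 3 * (n / 3 : ℕ) + 3 := by exact_mod_cast this
    linarith
  set w := y ^ 4 * L with hw
  have t1 : 2 * (2 * ((1 + exp (-(n : ℝ) / 400)) ^ n - 1)) ≤ exp (-(3 / 100 * w)) := by
    have a1 : (1 + exp (-(n : ℝ) / 400)) ^ n ≤ exp (n * exp (-(n : ℝ) / 400)) := by
      rw [exp_nat_mul]
      gcongr
      linarith [add_one_le_exp (exp (-(n : ℝ) / 400))]
    have a2 : n * exp (-(n : ℝ) / 400) = exp (8 * L + -(n : ℝ) / 400) := by rw [exp_add, ← e0]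
    have a3 : exp (8 * L + -(n : ℝ) / 400) ≤ 1 := exp_le_one_iff.2 (by rw [hn]; linarith)
    have a4 := abs_exp_sub_one_le (x := exp (8 * L + -(n : ℝ) / 400))
      (by rwa [abs_of_pos (exp_pos _)])
    rw [abs_of_pos (exp_pos _)] at a4
    have a5 := le_abs_self (exp (exp (8 * L + -(n : ℝ) / 400)) - 1)
    have a6 : exp 7 * exp (8 * L + -(n : ℝ) / 400) ≤ exp (-(3 / 100 * w)) := by
      rw [← exp_add, hn]
      exact exp_le_exp.2 (by linarith)
    have a7 := mul_le_mul_of_nonneg_right (add_one_le_exp (7 : ℝ))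
      (exp_pos (8 * L + -(n : ℝ) / 400)).le
    rw [a2] at a1
    linarith
  have t2 : 4 * (((n : ℝ) + 1) ^ 2 * exp (-(L / 2)) ^ R) ≤ exp (-(3 / 100 * w)) := by
    calc _ ≤ exp 3 * (exp (9 * L) ^ 2 * exp (-(L / 2)) ^ R) := by gcongr
      _ ≤ _ := by
          simp only [← exp_nat_mul, ← exp_add]
          push_cast
          exact exp_le_exp.2 (by linarith)
  have t0 : (((3 * n + 5) ^ R * n ^ K : ℕ) : ℝ) ≤ exp (10 * L) ^ R * exp (8 * L) ^ K := by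
    push_cast
    gcongr
    exact e0.le
  have t3 : 2 * ((((n + 1) ^ l) ^ 2 : ℕ) * ((((3 * n + 5) ^ R * n ^ K : ℕ) : ℝ) *
      (7 / 8) ^ (n / 3))) ≤ exp (-(3 / 100 * w)) := by
    calc _ ≤ exp 1 * ((exp (9 * L) ^ l) ^ 2 * (exp (10 * L) ^ R * exp (8 * L) ^ K *
          exp (-(1 / 8)) ^ (n / 3))) := by
          gcongr
          push_cast
          gcongr
      _ ≤ _ := by
          simp only [← exp_nat_mul, ← exp_add]
          push_cast
          exact exp_le_exp.2 (by linarith)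
  have t5 : (((3 * n + 5) ^ R * n ^ K : ℕ) : ℝ) * (7 / 8) ^ p ≤ exp (-(3 / 100 * w)) := by
    calc _ ≤ exp (10 * L) ^ R * exp (8 * L) ^ K * exp (-(1 / 8)) ^ p := by gcongr
      _ ≤ _ := by
          simp only [← exp_nat_mul, ← exp_add]
          exact exp_le_exp.2 (by linarith)
  have t4 : 4 * exp (-(3 / 100 * w)) ≤ exp (-(24 / 1000 * w)) := by
    rw [show -(24 / 1000 * w) = 6 / 1000 * w + -(3 / 100 * w) by ring, exp_add]
    gcongr
    linarith [add_one_le_exp (6 / 1000 * w)]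
  linarith

theorem num3 {y : ℝ} (hy : 10 ^ 7 ≤ y) {n r : ℕ} (hn : (n : ℝ) = y ^ 8)
    (hr : (r : ℝ) ≤ y ^ 4 / 2000) :
    (((r + 1) * (n * n) ^ r : ℕ) : ℝ) * exp (-(24 / 1000 * (y ^ 4 * log y))) ≤
        exp (-(1 / 2000 * y ^ 4 * (8 * log y))) ∧
      2 * exp (-(24 / 1000 * (y ^ 4 * log y))) ≤ exp (-(1 / 2000 * y ^ 4 * (8 * log y))) := by
  have hy0 : 0 < y := by linarith
  obtain ⟨hL1, -⟩ := log_facts hy
  have e0 : (n : ℝ) = exp (8 * log y) := by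
    rw [hn, show 8 * log y = (8 : ℕ) * log y by norm_num, exp_nat_mul, exp_log hy0]
  set L := log y
  have y4 : y ≤ y ^ 4 := le_self_pow₀ (by linarith) (by norm_num)
  have f1 : r * L ≤ y ^ 4 * L / 2000 := by
    linarith [mul_le_mul_of_nonneg_right hr (show 0 ≤ L by linarith)]
  have f7 : (r : ℝ) ≤ r * L := le_mul_of_one_le_right (Nat.cast_nonneg _) hL1
  have f3 : y ^ 4 ≤ y ^ 4 * L := le_mul_of_one_le_right (by positivity) hL1
  have t0 : (((r + 1) * (n * n) ^ r : ℕ) : ℝ) ≤ exp (r + r * (16 * L)) := by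
    push_cast
    rw [exp_add, exp_nat_mul, show 16 * L = 8 * L + 8 * L by ring, exp_add, ← e0]
    gcongr
    exact add_one_le_exp _
  have e2 : (2 : ℝ) ≤ exp 1 := by linarith [add_one_le_exp (1 : ℝ)]
  constructor
  · refine (mul_le_mul_of_nonneg_right t0 (exp_pos _).le).trans ?_
    rw [← exp_add]
    exact exp_le_exp.2 (by linarith)
  · refine (mul_le_mul_of_nonneg_right e2 (exp_pos _).le).trans ?_
    rw [← exp_add]
    exact exp_le_exp.2 (by linarith)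

end Pool.Agent.MP_f8284b_co.N72
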