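import Mathlib
import Pool.Agent.MP_f8284b_co.N72.Gen

set_option autoImplicit false

/-! Edit sets touching few vertices. -/

namespace Pool.Agent.MP_f8284b_co.N72

open Finset Polynomial Pool.Agent.MP_f8284b_co.U85

variable {V : Type} [Fintype V] [DecidableEq V]

noncomputable def fs (U : Finset V) (a : ℕ) (γ γ' : Finset V → ℕ) (u v : V) (β : V → Bool) : ℚ[X] :=
  X ^ dd β (({v} : Finset V)ᶜ.erase u) * ps U a γ γ' β

theorem small_bits (D : Finset (Sym2 V)) (U : Finset V) (a : ℕ) {u : V} (hu : u ∉ U) (R m : ℕ) :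
    Pr (fun ω => EQ D U a ω ∧ Grp (insert u U)ᶜ
      (fun v => fs U a (ct ω) (ct (flp D ω)) u v (row ω v)) R m) ≤
      (Fintype.card V + 1) * mid m ^ R := by
  refine (sum_fib _ _ (fun ω => ct ω {u}) (fun ω => ct_mem ω u) (x := mid m ^ R)
    fun j _ => ?_).trans (le_of_eq (by simp))
  refine le_trans (Pr_mono fun ω hω => ?_) (bits_gen u (insert u U)ᶜ (by simp)
    (fun ω v => fs U a (ct ω) (ct (flp D ω)) u v (row ω v))
    (fun ω => EQ D U a ω ∧ ct ω {u} = j) R m fun ζ η η' a1 a2 a3 a4 => ?_)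
  · exact ⟨⟨hω.1.1, hω.2⟩, hω.1.2⟩
  have b1 := EQ_iff D U a hu a3 a1.1
  have b2 := EQ_iff D U a hu a4 a2.1
  rw [a1.2] at b1
  rw [a2.2] at b2
  have b3 : ∑ v ∈ (insert u U)ᶜ, (X ^ ind η' u v * fs U a (ct ζ) (ct (flp D ζ)) u v (row ζ v) -
      X ^ ind η u v * fs U a (ct ζ) (ct (flp D ζ)) u v (row ζ v)) = 0 := by
    rw [sum_sub_distrib]
    unfold fs
    linear_combination b2 - b1
  rw [← b3, mul_sum]
  refine sum_congr rfl fun v _ => ?_
  unfold ind
  split_ifs <;> simp <;> ring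

theorem gm_ct {ω : Sym2 V → Bool} {A : Finset V} {δ : V → ℕ} {τ : V × V → Bool}
    (h1 : ∀ x ∈ A, δ x = ct ω {x}) (h2 : ∀ x ∈ A, ∀ w ∈ A, τ (x, w) = ω s(x, w)) :
    gm (δ, τ) A = ct ω A := by
  refine sum_congr rfl fun x hx => ?_
  have h3 : ({x} : Finset V)ᶜ = Aᶜ ∪ A.erase x := by
    ext w
    by_cases a : w ∈ A
    · simp [a]
    · have : w ≠ x := fun e => a (e ▸ hx)
      simp [a, this]
  have h4 : ∑ w ∈ A.erase x, (if τ (x, w) = true then 1 else 0) = ∑ w ∈ A.erase x, ind ω x w :=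
    sum_congr rfl fun w hw => by
      rw [h2 x hx w (mem_of_mem_erase hw)]
      rfl
  simp only
  rw [h4, h1 x hx, ct_single, h3, sum_union (disjoint_compl_left.mono_right (erase_subset _ _)),
    Nat.add_sub_cancel]

theorem small_many (D : Finset (Sym2 V)) (U Z : Finset V) {a : ℕ} (ha : a ≤ 2) {u : V}
    {k R m R' p : ℕ} (hZ : Z.card = 2 * k) (hR : 64 * R ^ 2 ≤ 2 * k + 1) (hZU : Z ⊆ (insert u U)ᶜ)
    (hRn : R ≤ 3 * Fintype.card V + 5) (hk : 2 * m * R' ≤ Fintype.card V)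
    (hp : p + 2 * k + 2 * m * R' ≤ (insert u U)ᶜ.card) :
    Pr (fun ω => (∃ A ∈ powersetCard a U, ct ω A ≠ ct (flp D ω) A) ∧
        ¬ Grp (insert u U)ᶜ (fun v => fs U a (ct ω) (ct (flp D ω)) u v (row ω v)) R m ∧
        ¬ Grp (insert u U)ᶜ (fun v => fs U a (ct ω) (ct (flp D ω)) u v (row ω v)) R' 1) ≤
      (((Fintype.card V + 1) ^ U.card) ^ 2 : ℕ) *
        ((((3 * Fintype.card V + 5) ^ R * Fintype.card V ^ (2 * m * R') : ℕ) : ℝ) * (7 / 8) ^ p) := by
  set n := Fintype.card V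
  let F : Finset (Sym2 V) := univ.filter fun e => ¬ ∀ x ∈ e, x ∈ U
  let Γ := Fintype.piFinset fun v => if v ∈ U then range (n + 1) else {0}
  have hΓ : ∀ ω, (fun v => if v ∈ U then ct ω {v} else 0) ∈ Γ := fun ω =>
    Fintype.mem_piFinset.2 fun v => by
      by_cases h : v ∈ U
      · simpa only [if_pos h] using ct_mem ω v
      · simp [h]
  refine Sm.le (F := F) fun η => ?_
  refine (sum_fib (Γ ×ˢ Γ) _ (fun ω => (fun v => if v ∈ U then ct (pw F ω η) {v} else 0,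
    fun v => if v ∈ U then ct (flp D (pw F ω η)) {v} else 0))
    (fun ω => mem_product.2 ⟨hΓ _, hΓ _⟩) fun q hq => ?_).trans
    (le_of_eq (by rw [card_product, card_pi_ite, card_range, sq]))
  set γ := gm (q.1, fun p => η s(p.1, p.2))
  set γ' := gm (q.2, fun p => flp D η s(p.1, p.2))
  have hin : ∀ ω, ∀ x ∈ U, ∀ w ∈ U, η s(x, w) = pw F ω η s(x, w) := fun ω x hx w hw =>
    (pw_out _ _ (by simp [F, hx, hw])).symm
  have key : ∀ ω, (fun v => if v ∈ U then ct (pw F ω η) {v} else 0,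
      fun v => if v ∈ U then ct (flp D (pw F ω η)) {v} else 0) = q → ∀ A ∈ powersetCard a U,
      ct (pw F ω η) A = γ A ∧ ct (flp D (pw F ω η)) A = γ' A := fun ω e A hA => by
    have hU := (mem_powersetCard.1 hA).1
    subst e
    exact ⟨(gm_ct (fun x hx => if_pos (hU hx)) fun x hx w hw => hin ω x (hU hx) w (hU hw)).symm,
      (gm_ct (fun x hx => if_pos (hU hx)) fun x hx w hw => by
        simp only [flp, hin ω x (hU hx) w (hU hw)]).symm⟩
  by_cases hne : ∃ A ∈ powersetCard a U, γ A ≠ γ' A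
  swap
  · rw [Pr_eq_zero]
    · positivity
    · rintro ω ⟨⟨⟨A, hA, h⟩, -⟩, e⟩
      exact hne ⟨A, hA, by rwa [← (key ω e A hA).1, ← (key ω e A hA).2]⟩
  obtain ⟨A, hA, hne⟩ := hne
  have hv : ∀ v ∈ (insert u U)ᶜ \ Z, v ∉ U ∧ v ∉ Z := fun v hv =>
    ⟨fun h => mem_compl.1 (mem_sdiff.1 hv).1 (mem_insert_of_mem h), (mem_sdiff.1 hv).2⟩
  have hb : ∀ δ ∈ Γ, ∀ τ, ∀ B ∈ powersetCard a U, gm (δ, τ) B ≤ 2 * n := fun δ hδ τ B hB => by
    refine (sum_le_card_nsmul _ _ n fun x hx => (Nat.sub_le _ _).trans ?_).trans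
      (Nat.mul_le_mul_right _ ((mem_powersetCard.1 hB).2.trans_le ha))
    have := Fintype.mem_piFinset.1 hδ x
    rw [if_pos ((mem_powersetCard.1 hB).1 hx), mem_range] at this
    exact Nat.lt_succ_iff.1 this
  refine le_trans (Pr_mono fun ω hω => ?_) (many_gen (insert u U)ᶜ ((insert u U)ᶜ \ Z) sdiff_subset
    (fs U a γ γ' u) (fun v => st v (U ∪ Z)) (fun v β => ?_) hRn hk ?_ (fun v h T hT η' => ?_)
    fun i hi j hj hij w hc => ?_)
  · have e : ∀ v ∈ (insert u U)ᶜ, fs U a γ γ' u v (row ω v) = fs U a (ct (pw F ω η))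
        (ct (flp D (pw F ω η))) u v (row (pw F ω η) v) := fun v hv => by
      have : row (pw F ω η) v = row ω v := funext fun w => pw_in _ _ (mem_filter.2
        ⟨mem_univ _, fun h => mem_compl.1 hv (mem_insert_of_mem (h v (Sym2.mem_mk_left _ _)))⟩)
      rw [this, fs, fs, ps_congr (key ω hω.2) fun _ _ => rfl]
    exact ⟨fun h => hω.1.2.1 (h.congr e), fun h => hω.1.2.2 (h.congr e)⟩
  · have d1 := ps_deg U a γ γ' β (2 * n) fun B hB =>
      ⟨hb _ (mem_product.1 hq).1 _ B hB, hb _ (mem_product.1 hq).2 _ B hB⟩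
    have d2 := dd_le β (({v} : Finset V)ᶜ.erase u)
    have d3 : (fs U a γ γ' u v β).natDegree ≤ _ := natDegree_mul_le
    rw [natDegree_X_pow] at d3
    omega
  · have := le_card_sdiff Z (insert u U)ᶜ
    omega
  · refine le_trans (Pr_mono fun ω hω => ?_)
      (vertex_sm U Z ha γ γ' hA hne (u := u) hZ hR hZU (hv v h).1 (hv v h).2 T hT η')
    by_cases h0 : ps U a γ γ' (row (pw (st v (U ∪ Z)) ω η') v) = 0
    · exact Or.inl h0
    · refine Or.inr ?_
      have := hω.resolve_left (mul_ne_zero (pow_ne_zero _ X_ne_zero) h0)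
      rwa [fs, natDegree_X_pow_mul _ h0, add_comm] at this
  · rcases mem_st.1 hc with ⟨c, -⟩ | ⟨-, c⟩
    · exact hij c.symm
    · exact (mem_union.1 c).elim (hv j hj).1 (hv j hj).2

end Pool.Agent.MP_f8284b_co.N72
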