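import Mathlib
import Pool.Agent.MP_f8284b_co.N72.Main
import Pool.Agent.MP_f8284b_co.N72.Small
import Pool.Agent.MP_f8284b_co.N72.Large
import Pool.Agent.MP_f8284b_co.N72.Num2

set_option autoImplicit false

/-! The uniform bound for every edit set, and its consequences. -/

namespace Pool.Agent.MP_f8284b_co.N72

open Finset Polynomial Pool.Agent.MP_f8284b_co.U85

variable {V : Type} [Fintype V] [DecidableEq V]

theorem Nice.win0 {ω : Sym2 V → Bool} (h : Nice 0 ω) (hn : 200 ≤ Fintype.card V) (S : Finset V) :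
    ((5 * 0 + 2) * Fintype.card V < 10 * ct ω S ∧ 10 * ct ω S < (5 * 0 + 7) * Fintype.card V) ↔
      (S.card = 0 + 1 ∨ S.card + (0 + 1) = Fintype.card V) := by
  have h1 := h S
  have h2 := card_add_card_compl S
  generalize S.card = k at *
  generalize Sᶜ.card = m at *
  generalize ct ω S = c at *
  generalize Fintype.card V = n at *
  by_cases h4 : k ≤ 1
  · interval_cases k <;> omega
  by_cases h5 : m ≤ 1
  · interval_cases m <;> omega
  have h3 : 2 * (k + m) ≤ k * m + 4 := by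
    obtain ⟨k', rfl⟩ : ∃ k', k = k' + 2 := ⟨k - 2, by omega⟩
    obtain ⟨m', rfl⟩ : ∃ m', m = m' + 2 := ⟨m - 2, by omega⟩
    nlinarith [Nat.zero_le (k' * m')]
  generalize k * m = p at *
  omega

theorem level_one' {G : SimpleGraph V} {ω : Sym2 V → Bool}
    (h : ∀ u w, G.Adj u w ↔ u ≠ w ∧ ω s(u, w) = true) (hN : Nice 0 ω)
    (hn : 200 ≤ Fintype.card V) (j : ℕ) :
    ∑ S : Finset V, tf (Fintype.card V) 0 j (gcut G S) =
      2 * (∑ v, (X : ℚ[X]) ^ ct ω {v}).coeff j := by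
  rw [sum_level G _ (0 + 1) (by omega), finsetSum_coeff, zero_add, powersetCard_one, sum_map]
  · congr 1
    refine sum_congr (by congr) fun v _ => ?_
    rw [gcut_ct h, coeff_X_pow, tf]
    have := (hN.win0 hn {v}).2 (Or.inl (card_singleton v))
    simp only [Function.Embedding.coeFn_mk, this, true_and]
  · intro S hS
    rw [gcut_ct h] at hS
    by_contra hc
    exact hS (if_neg fun hh => hc ((hN.win0 hn S).1 hh.1))

/-- the event that contains equality of the cut enumerators before and after the edit -/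
def Zv (D : Finset (Sym2 V)) (ω : Sym2 V → Bool) : Prop :=
  (¬ Nice 0 ω ∨ ¬ Nice 0 (flp D ω)) ∨ (E1 D ω ∧ ∃ a ∈ ({1, 2} : Finset ℕ), Bad D a ω)

theorem det2 {G H : SimpleGraph V} {ω : Sym2 V → Bool} (D : Finset (Sym2 V))
    (h : ∀ u w, G.Adj u w ↔ u ≠ w ∧ ω s(u, w) = true)
    (hD : ∀ e, e ∈ D ↔ e ∈ symmDiff G.edgeSet H.edgeSet) (hne : H ≠ G)
    (hn : 200 ≤ Fintype.card V)
    (hT : ∀ φ : ℕ → ℚ, ∑ S : Finset V, φ (gcut G S) = ∑ S : Finset V, φ (gcut H S)) : Zv D ω := by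
  by_cases hc : ¬ Nice 0 ω ∨ ¬ Nice 0 (flp D ω)
  · exact Or.inl hc
  rw [not_or, not_not, not_not] at hc
  obtain ⟨hN, hN'⟩ := hc
  have hD' : ∀ u w, s(u, w) ∈ D ↔ ¬ (G.Adj u w ↔ H.Adj u w) := fun u w => by
    rw [hD, Set.mem_symmDiff, SimpleGraph.mem_edgeSet, SimpleGraph.mem_edgeSet]
    tauto
  have h' : ∀ u w, H.Adj u w ↔ u ≠ w ∧ flp D ω s(u, w) = true := fun u w => by
    have a1 := hD' u w
    have a2 := h u w
    have a3 : H.Adj u w → u ≠ w := fun x => x.ne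
    unfold flp
    by_cases b : s(u, w) ∈ D
    · rw [if_pos b]
      cases c : ω s(u, w) <;> simp only [c] at a2 <;> simp <;> tauto
    · rw [if_neg b]
      tauto
  have hU : ∀ e ∈ D, ∀ v ∈ e, v ∈ tv D := fun e he v hv =>
    mem_biUnion.2 ⟨e, he, Sym2.mem_toFinset.2 hv⟩
  obtain ⟨u, w, huw⟩ : ∃ u w, ¬ (G.Adj u w ↔ H.Adj u w) := by
    by_contra hc
    push Not at hc
    exact hne (SimpleGraph.ext (funext fun u => funext fun w => propext (hc u w).symm))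
  have hne' : u ≠ w := by
    rintro rfl
    simp at huw
  obtain ⟨a, ha, h1, h2⟩ := exists_level hU ω hne' ((hD' u w).2 huw)
  refine Or.inr ⟨?_, a, ha, h2, level_eq hU ω a h1 ?_⟩
  · rw [E1, sum_sub_distrib, sub_eq_zero]
    ext j
    have b1 := level_one' h hN hn j
    rw [hT, level_one' h' hN' hn j] at b1
    linarith
  · rw [sum_sub_distrib, sub_eq_zero]
    ext j
    have b1 := level_sum h (fun S => by have := hN S; omega) hn ha j
    rw [hT, level_sum h' (fun S => by have := hN' S; omega) hn ha j] at b1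
    linarith

theorem ev_prob (D : Finset (Sym2 V)) (hD : ∀ e ∈ D, ¬ e.IsDiag) {l R j p : ℕ} {y : ℝ} (hy : 0 < y)
    (hyj : y ≤ 2 * j + 1) (hR : 256 * R ^ 2 ≤ Fintype.card V)
    (hn : 6 * (2 * (2 * j) * (j * R) + l + 1) ≤ Fintype.card V)
    (hp : 4 * (p + 2 * (2 * j) * (j * R)) ≤ l) :
    Pr (fun ω => E1 D ω ∧ ∃ a ∈ ({1, 2} : Finset ℕ), Bad D a ω) ≤
      4 * ((Fintype.card V + 1) ^ 2 * Real.exp (-(Real.log y / 2)) ^ R) +
      2 * ((((Fintype.card V + 1) ^ l) ^ 2 : ℕ) * ((((3 * Fintype.card V + 5) ^ R *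
        Fintype.card V ^ (2 * (2 * j) * (j * R)) : ℕ) : ℝ) * (7 / 8) ^ (Fintype.card V / 3))) +
      (((3 * Fintype.card V + 5) ^ R * Fintype.card V ^ (2 * (2 * j) * (j * R)) : ℕ) : ℝ) *
        (7 / 8) ^ p := by
  obtain ⟨u, -⟩ : (univ : Finset V).Nonempty := card_pos.1 (by rw [card_univ]; omega)
  obtain ⟨m1, m2⟩ := mid_le j hy hyj
  have h4 : mid (2 * j) ^ R ≤ Real.exp (-(Real.log y / 2)) ^ R :=
    pow_le_pow_left₀ (mid_nonneg _) m1 _
  have h5 : mid 1 ^ (j * R) ≤ Real.exp (-(Real.log y / 2)) ^ R := by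
    rw [pow_mul]
    exact pow_le_pow_left₀ (pow_nonneg (mid_nonneg _) _) m2 _
  have hRn : R ≤ Fintype.card V := by nlinarith
  set n := Fintype.card V with hnd
  set β := Real.exp (-(Real.log y / 2)) ^ R
  have hβ : 0 ≤ β := by positivity
  have hn0 : (0 : ℝ) ≤ n := Nat.cast_nonneg _
  rcases le_or_gt (tv D).card l with hU | hU
  · obtain ⟨u, -, hu⟩ := exists_mem_notMem_of_card_lt_card (s := tv D) (t := univ)
      (by rw [card_univ]; omega)
    have hc : (insert u (tv D))ᶜ.card + ((tv D).card + 1) = n := by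
      rw [← card_insert_of_notMem hu, add_comm, card_add_card_compl]
    obtain ⟨Z, hZ, hZc⟩ := exists_subset_card_eq (s := (insert u (tv D))ᶜ) (n := 2 * (n / 4))
      (by omega)
    have key : ∀ a ∈ ({1, 2} : Finset ℕ), Pr (Bad D a) ≤ (n + 1) ^ 2 * β + (n + 1) ^ 2 * β +
        (((n + 1) ^ l) ^ 2 : ℕ) * ((((3 * n + 5) ^ R * n ^ (2 * (2 * j) * (j * R)) : ℕ) : ℝ) *
          (7 / 8) ^ (n / 3)) := fun a ha => by
      have hp1 : (n : ℝ) + 1 ≤ (n + 1) ^ 2 := by nlinarith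
      refine both_gen ((small_bits D (tv D) a hu R (2 * j)).trans
          (mul_le_mul hp1 h4 (pow_nonneg (mid_nonneg _) _) (by positivity)))
        ((small_bits D (tv D) a hu (j * R) 1).trans
          (mul_le_mul hp1 h5 (pow_nonneg (mid_nonneg _) _) (by positivity)))
        ((small_many D (tv D) Z (by simp only [mem_insert, mem_singleton] at ha; omega)
          (p := n / 3) hZc (by omega) hZ (by omega) (by omega) (by omega)).trans ?_)
      gcongr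
      omega
    refine le_trans (Pr_mono fun ω hω => hω.2) ((Pr_exists_le _ _).trans
      ((sum_le_card_nsmul _ _ _ key).trans ?_))
    rw [card_pair (by norm_num), nsmul_eq_mul]
    have : (0 : ℝ) ≤ (((3 * n + 5) ^ R * n ^ (2 * (2 * j) * (j * R)) : ℕ) : ℝ) * (7 / 8) ^ p := by
      positivity
    push_cast at this ⊢
    linarith
  · have hU' : ∀ v ∈ tv D, ∃ w, w ≠ v ∧ s(v, w) ∈ D := fun v hv => by
      obtain ⟨e, he, hv⟩ := mem_biUnion.1 hv
      have hs := Sym2.other_spec (Sym2.mem_toFinset.1 hv)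
      refine ⟨_, fun h => hD e he ?_, hs.symm ▸ he⟩
      rw [← hs, h]
      simp
    have h3 := large_many D (tv D) hU' u (k := n / 4) (R := R) (m := 2 * j) (R' := j * R) (p := p)
      (by omega) (by omega) (by omega) (by omega)
    have h6 := both_gen (D := fun _ => True) (large_bits D u R (2 * j)) (large_bits D u (j * R) 1)
      ((Pr_mono fun ω hω => hω.2).trans h3)
    refine le_trans (Pr_mono fun ω hω => ⟨trivial, hω.1⟩) (h6.trans ?_)
    have a1 : ((n : ℝ) + 1) ^ 2 * mid (2 * j) ^ R ≤ (n + 1) ^ 2 * β := by gcongr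
    have a2 : ((n : ℝ) + 1) ^ 2 * mid 1 ^ (j * R) ≤ (n + 1) ^ 2 * β := by gcongr
    have a3 : (((n + 1) ^ R * n ^ (2 * (2 * j) * (j * R)) : ℕ) : ℝ) * (7 / 8) ^ p ≤
        (((3 * n + 5) ^ R * n ^ (2 * (2 * j) * (j * R)) : ℕ) : ℝ) * (7 / 8) ^ p := by
      gcongr <;> omega
    have a4 : (0 : ℝ) ≤ (((n + 1) ^ l) ^ 2 : ℕ) * ((((3 * n + 5) ^ R *
        n ^ (2 * (2 * j) * (j * R)) : ℕ) : ℝ) * (7 / 8) ^ (n / 3)) := by positivity
    have a5 : 0 ≤ ((n : ℝ) + 1) ^ 2 * β := by positivity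
    linarith

theorem zv_prob {n : ℕ} {y : ℝ} (hy : 10 ^ 7 ≤ y) (hy8 : (n : ℝ) = y ^ 8)
    (D : Finset (Sym2 (Fin n))) (hD : ∀ e ∈ D, ¬ e.IsDiag) :
    Pr (Zv D) ≤ Real.exp (-(24 / 1000 * (y ^ 4 * Real.log y))) := by
  have hy0 : 0 ≤ y := by linarith
  obtain ⟨l, hl⟩ : ∃ l, l = ⌊y ^ 7⌋₊ := ⟨_, rfl⟩
  obtain ⟨p, hp⟩ : ∃ p, p = ⌊y ^ 7 / 5⌋₊ := ⟨_, rfl⟩
  obtain ⟨R, hR⟩ : ∃ R, R = ⌊y ^ 4 / 16⌋₊ := ⟨_, rfl⟩
  obtain ⟨j, hj⟩ : ∃ j, j = ⌊y⌋₊ := ⟨_, rfl⟩
  have l1 : (l : ℝ) ≤ y ^ 7 := hl ▸ Nat.floor_le (by positivity)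
  have l2 : y ^ 7 - 1 ≤ l := hl ▸ (Nat.sub_one_lt_floor _).le
  have p1 : (p : ℝ) ≤ y ^ 7 / 5 := hp ▸ Nat.floor_le (by positivity)
  have p2 : y ^ 7 / 5 - 1 ≤ p := hp ▸ (Nat.sub_one_lt_floor _).le
  have R1 : y ^ 4 / 16 - 1 ≤ R := hR ▸ (Nat.sub_one_lt_floor _).le
  have R2 : (R : ℝ) ≤ y ^ 4 / 16 := hR ▸ Nat.floor_le (by positivity)
  have j1 : (j : ℝ) ≤ y := hj ▸ Nat.floor_le hy0
  have j2 : y ≤ 2 * j + 1 := by
    have := hj ▸ Nat.lt_floor_add_one y
    linarith [Nat.cast_nonneg (α := ℝ) j]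
  have K1 : ((2 * (2 * j) * (j * R) : ℕ) : ℝ) ≤ y ^ 6 := by
    push_cast
    calc _ ≤ 2 * (2 * y) * (y * (y ^ 4 / 16)) := by gcongr
      _ = y ^ 6 / 4 := by ring
      _ ≤ _ := by linarith [pow_nonneg hy0 6]
  have y1 : 1 ≤ y := by linarith
  have y2 : 100 * y ^ 6 ≤ y ^ 7 := by
    rw [pow_succ' y 6]
    gcongr
    linarith
  have y3 : 100 * y ^ 7 ≤ y ^ 8 := by
    rw [pow_succ' y 7]
    gcongr
    linarith
  have y4 : 1 ≤ y ^ 6 := one_le_pow₀ y1
  have c1 : 256 * R ^ 2 ≤ n := by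
    have : 256 * (R : ℝ) ^ 2 ≤ n := by
      rw [hy8]
      calc _ ≤ 256 * (y ^ 4 / 16) ^ 2 := by gcongr
        _ = _ := by ring
    exact_mod_cast this
  have c2 : 6 * (2 * (2 * j) * (j * R) + l + 1) ≤ n ∧ 4 * (p + 2 * (2 * j) * (j * R)) ≤ l := by
    generalize 2 * (2 * j) * (j * R) = K at *
    have a1 : 6 * ((K : ℝ) + l + 1) ≤ n := by linarith
    have a2 : 4 * ((p : ℝ) + K) ≤ l := by linarith
    exact ⟨by exact_mod_cast a1, by exact_mod_cast a2⟩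
  have h1 := nice_prob (V := Fin n)
  have h2 := ev_prob D hD (by linarith) j2 (by simpa using c1) (by simpa using c2.1) c2.2
  have h3 := pr_flp D fun ω => ¬ Nice 0 ω
  simp only [Fintype.card_fin] at h1 h2
  refine le_trans ((Pr_or_le _ _).trans (add_le_add (Pr_or_le _ _) h2))
    (le_trans ?_ (num2 hy hy8 l1 R1 R2 K1 p2))
  linarith

theorem frac_eq {n : ℕ} (P : SimpleGraph (Fin n) → Prop) :
    (Nat.card {G : SimpleGraph (Fin n) // P G} : ℝ) / (Nat.card (SimpleGraph (Fin n)) : ℝ) =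
      Pr fun ω => P (TR.gr ω) := by
  classical
  rw [← TR.Pr_fst (B := Fin n → Bool) P, ← Pr_comp_equiv (TR.eqv n) (fun x => P x.1)]
  rfl

open Classical in
/-- the Tutte polynomial of a simple graph -/
noncomputable abbrev tg {n : ℕ} (G : SimpleGraph (Fin n)) : MvPolynomial (Fin 2) ℤ :=
  tutte (Subtype.val : G.edgeSet → Sym2 (Fin n))

open Classical in
theorem single {n : ℕ} {y : ℝ} (hy : 10 ^ 7 ≤ y) (hy8 : (n : ℝ) = y ^ 8) (hn : 200 ≤ n)
    (D : SimpleGraph (Fin n)) (hD : D ≠ ⊥) :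
    (Nat.card {G : SimpleGraph (Fin n) // tg (symmDiff G D) = tg G} : ℝ) /
      (Nat.card (SimpleGraph (Fin n)) : ℝ) ≤ Real.exp (-(24 / 1000 * (y ^ 4 * Real.log y))) := by
  rw [frac_eq]
  refine le_trans (Pr_mono fun ω hω => ?_) (zv_prob hy hy8 D.edgeFinset fun e he =>
    D.not_isDiag_of_mem_edgeSet (SimpleGraph.mem_edgeFinset.1 he))
  refine det2 _ (fun u w => Iff.rfl) (fun e => ?_) (fun h => hD (symmDiff_eq_left.1 h))
    (by simpa using hn) (cut_of_tutte hω)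
  induction e using Sym2.ind with
  | _ u w =>
    rw [Set.mem_symmDiff, symmDiff_def]
    simp only [SimpleGraph.mem_edgeFinset, SimpleGraph.mem_edgeSet, SimpleGraph.sup_adj,
      SimpleGraph.sdiff_adj]
    tauto

open Classical in
theorem near {n : ℕ} {y : ℝ} (hy : 10 ^ 7 ≤ y) (hy8 : (n : ℝ) = y ^ 8) (hn : 200 ≤ n) :
    (Nat.card {G : SimpleGraph (Fin n) // ∃ H H' : SimpleGraph (Fin n), tg H = tg G ∧
      Nonempty (H ≃g H') ∧ ((symmDiff G.edgeSet H'.edgeSet).ncard : ℝ) ≤ 1 / 2000 * y ^ 4 ∧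
        H' ≠ G} : ℝ) / (Nat.card (SimpleGraph (Fin n)) : ℝ) ≤
      Real.exp (-(1 / 2000 * y ^ 4 * (8 * Real.log y))) := by
  obtain ⟨r, hr⟩ : ∃ r, r = ⌊y ^ 4 / 2000⌋₊ := ⟨_, rfl⟩
  have r1 : (r : ℝ) ≤ y ^ 4 / 2000 := hr ▸ Nat.floor_le (by positivity)
  have : Nonempty (Fin n) := ⟨⟨0, by omega⟩⟩
  rw [frac_eq]
  have h1 := (Pr_exists_le ((univ.filter fun D : Finset (Sym2 (Fin n)) => D.card ≤ r).filter
    fun D => ∀ e ∈ D, ¬ e.IsDiag) Zv).trans (sum_le_card_nsmul _ _ _ fun D hD =>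
      zv_prob hy hy8 D (mem_filter.1 hD).2)
  refine le_trans (Pr_mono fun ω hω => ?_) (h1.trans (le_trans ?_ (num3 hy hy8 r1).1))
  · obtain ⟨H, H', hT, ⟨e⟩, hd, hne⟩ := hω
    refine ⟨(symmDiff (TR.gr ω).edgeSet H'.edgeSet).toFinset, mem_filter.2 ⟨mem_filter.2
      ⟨mem_univ _, ?_⟩, fun e he => ?_⟩, det2 _ (fun u w => Iff.rfl) (fun e => Set.mem_toFinset) hne
        (by simpa using hn) fun φ => (cut_of_tutte hT φ).trans (gcut_iso e φ)⟩
    · rw [← Set.ncard_eq_toFinset_card', hr]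
      exact Nat.le_floor (by linarith)
    · exact (Set.mem_symmDiff.1 (Set.mem_toFinset.1 he)).elim
        (fun h => SimpleGraph.not_isDiag_of_mem_edgeSet _ h.1)
        fun h => SimpleGraph.not_isDiag_of_mem_edgeSet _ h.1
  · have := (card_filter_le _ fun D => ∀ e ∈ D, ¬ e.IsDiag).trans (card_edits (V := Fin n) r)
    rw [nsmul_eq_mul]
    simp only [Fintype.card_fin] at this
    gcongr

open Classical in
theorem pairs {n : ℕ} {y : ℝ} (hy : 10 ^ 7 ≤ y) (hy8 : (n : ℝ) = y ^ 8) (hn : 200 ≤ n) :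
    (Nat.card {p : SimpleGraph (Fin n) × SimpleGraph (Fin n) // tg p.1 = tg p.2} : ℝ) /
      (Nat.card (SimpleGraph (Fin n)) : ℝ) ^ 2 ≤
      Real.exp (-(1 / 2000 * y ^ 4 * (8 * Real.log y))) := by
  refine le_trans ?_ (num3 hy hy8 (r := 0) (by rw [Nat.cast_zero]; positivity)).2
  set ε := Real.exp (-(24 / 1000 * (y ^ 4 * Real.log y)))
  have hN : (0 : ℝ) < Nat.card (SimpleGraph (Fin n)) := by exact_mod_cast Nat.card_pos
  set N : ℝ := (Nat.card (SimpleGraph (Fin n)) : ℝ) with hNd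
  have h0 : 1 ≤ ε * N := by
    have h1 := frac_eq (n := n) fun G => G = ⊥
    rw [Nat.card_unique, Nat.cast_one] at h1
    rw [← div_le_iff₀ hN, h1]
    refine le_trans (Pr_mono fun ω hω => Or.inl (Or.inl fun h => ?_)) (zv_prob hy hy8 ∅ (by simp))
    have h2 := (h {⟨0, by omega⟩}).1
    rw [← gcut_ct (G := ⊥) (fun u w => by rw [← hω]; rfl), card_compl] at h2
    simp [gcut] at h2
    omega
  have h1 : ∀ D : SimpleGraph (Fin n), ∑ G : SimpleGraph (Fin n),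
      (if tg (symmDiff G D) = tg G then (1 : ℝ) else 0) ≤ ε * N + if D = ⊥ then N else 0 := by
    intro D
    rw [sum_boole, ← Fintype.card_subtype, ← Nat.card_eq_fintype_card]
    split_ifs with h
    · have : (Nat.card {G : SimpleGraph (Fin n) // tg (symmDiff G D) = tg G} : ℝ) ≤ N := by
        rw [hNd]
        exact_mod_cast Finite.card_subtype_le _
      linarith
    · rw [add_zero, ← div_le_iff₀ hN]
      exact single hy hy8 hn D h
  have h2 : (Nat.card {p : SimpleGraph (Fin n) × SimpleGraph (Fin n) // tg p.1 = tg p.2} : ℝ) =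
      ∑ D : SimpleGraph (Fin n), ∑ G : SimpleGraph (Fin n),
        if tg (symmDiff G D) = tg G then (1 : ℝ) else 0 := by
    rw [Nat.card_eq_fintype_card, Fintype.card_subtype, ← sum_boole, Fintype.sum_prod_type]
    refine sum_comm.trans ((sum_congr rfl fun G _ => ?_).trans sum_comm)
    exact (Fintype.sum_bijective _ (symmDiff_right_involutive G).bijective _ _ fun D => rfl).symm
  rw [h2, div_le_iff₀ (by positivity)]
  refine (sum_le_sum fun D _ => h1 D).trans ?_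
  rw [sum_add_distrib, sum_ite_eq', if_pos (mem_univ _), sum_const, card_univ, nsmul_eq_mul,
    ← Nat.card_eq_fintype_card, ← hNd]
  nlinarith

theorem exists_root {n : ℕ} (hn : 10 ^ 56 ≤ n) : ∃ y : ℝ, 10 ^ 7 ≤ y ∧ (n : ℝ) = y ^ 8 ∧
    √(n : ℝ) = y ^ 4 ∧ Real.log n = 8 * Real.log y := by
  obtain ⟨y, hy0, hy8⟩ : ∃ y : ℝ, 0 ≤ y ∧ (n : ℝ) = y ^ 8 :=
    ⟨(n : ℝ) ^ ((8 : ℕ) : ℝ)⁻¹, by positivity,
      (Real.rpow_inv_natCast_pow (Nat.cast_nonneg n) (by norm_num)).symm⟩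
  refine ⟨y, le_of_pow_le_pow_left₀ (n := 8) (by norm_num) hy0 ?_, hy8, ?_, ?_⟩
  · rw [← hy8, ← pow_mul]
    exact_mod_cast hn
  · rw [hy8, show y ^ 8 = (y ^ 4) ^ 2 by ring, Real.sqrt_sq (by positivity)]
  · rw [hy8, Real.log_pow]; norm_num

end Pool.Agent.MP_f8284b_co.N72
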